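import Pool.Agent.Run7.h634.HC.Defs
import Pool.Agent.TH133.Ext

/-!
# Degrees, push-forwards and external products
-/

set_option autoImplicit false

open CategoryTheory AlgebraicGeometry

universe u v

namespace Pool.Agent.Run7.H634.HC

open Pool.Agent.H914 Pool.Agent.H914.VarClass Pool.Agent.H914.VarClass.Obj Pool.Agent.W492.BB
  Pool.Agent.W550.Corr Pool.Agent.TH133

set_option linter.unusedSectionVars false

variable {k : Type u} [Field k] {𝒱 : VarClass k} {C : TheoryData.{u, v, 0} 𝒱 ℚ}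
  [hC : IsChowProj C] {W X Y Z : 𝒱.Obj}

include hC

lemma pint_push (f : X ⟶ W) (x : C.A X) (Y : 𝒱.Obj) :
    C.push (snd W Y) (C.pull (fst W Y) (C.push f x)) = C.push (snd X Y) (C.pull (fst X Y) x) := by
  rw [C.base_fst, ← C.push_comp, prodMap_snd, Category.comp_id]

lemma pint_push' (f : X ⟶ W) (x : C.A X) (Y : 𝒱.Obj) :
    C.push (fst Y W) (C.pull (snd Y W) (C.push f x)) = C.push (fst Y X) (C.pull (snd Y X) x) := by
  rw [C.base_snd, ← C.push_comp, prodMap_fst, Category.comp_id]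

lemma hasDegree_push_iff (f : X ⟶ W) (x : C.A X) (q : ℚ) :
    HasDegree C (C.push f x) q ↔ HasDegree C x q := by
  refine forall_congr' fun Y => ?_
  rw [pint_push, pint_push']

lemma hd_add {x y : C.A X} {q r : ℚ} (hx : HasDegree C x q) (hy : HasDegree C y r) :
    HasDegree C (x + y) (q + r) := by
  intro Y
  rw [map_add, map_add, map_add, map_add, (hx Y).1, (hx Y).2, (hy Y).1, (hy Y).2, add_smul]
  exact ⟨rfl, rfl⟩

lemma hd_sub {x y : C.A X} {q r : ℚ} (hx : HasDegree C x q) (hy : HasDegree C y r) :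
    HasDegree C (x - y) (q - r) := by
  intro Y
  rw [map_sub, map_sub, map_sub, map_sub, (hx Y).1, (hx Y).2, (hy Y).1, (hy Y).2, sub_smul]
  exact ⟨rfl, rfl⟩

lemma hd_smul {x : C.A X} {q : ℚ} (hx : HasDegree C x q) (r : ℚ) :
    HasDegree C (r • x) (r * q) := by
  intro Y
  rw [map_smul, map_smul, map_smul, map_smul, (hx Y).1, (hx Y).2, smul_smul]
  exact ⟨rfl, rfl⟩

lemma hd_sum {ι : Type*} (s : Finset ι) {x : ι → C.A X}
    (hx : ∀ i ∈ s, HasDegree C (x i) 0) : HasDegree C (∑ i ∈ s, x i) 0 := by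
  intro Y
  rw [map_sum, map_sum, map_sum, map_sum, Finset.sum_eq_zero fun i hi => ?_,
    Finset.sum_eq_zero fun i hi => ?_, zero_smul]
  · exact ⟨rfl, rfl⟩
  · rw [(hx i hi Y).2, zero_smul]
  · rw [(hx i hi Y).1, zero_smul]

lemma push_pull_eq_zero {l : ℤ} {x : C.A X} (hx : x ∈ C.gr X l) (hl : l ≠ X.dim) (f : Y ⟶ X)
    (g : Y ⟶ W) (hd : (Y.dim : ℤ) = X.dim + W.dim) : C.push g (C.pull f x) = 0 := by
  rcases lt_or_gt_of_ne hl with h | h
  · have h2 := C.push_mem g (C.pull_mem f hx)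
    rw [C.gr_neg W _ (by omega)] at h2
    exact (Submodule.mem_bot _).1 h2
  · rw [hC.gr_top X l _ hx h, map_zero, map_zero]

lemma hasDegree_of_ne {l : ℤ} {x : C.A X} (hx : x ∈ C.gr X l) (hl : l ≠ X.dim) :
    HasDegree C x 0 := by
  intro Y
  rw [push_pull_eq_zero hx hl _ _ (by rw [dim_prod]; push_cast; ring),
    push_pull_eq_zero hx hl _ _ (by rw [dim_prod]; push_cast; ring), zero_smul]
  exact ⟨rfl, rfl⟩

lemma push_fst_ext (a : C.A X) {w : C.A Z} {q : ℚ} (hw : HasDegree C w q) :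
    C.push (fst X Z) (C.ext a w) = q • a := by
  rw [TheoryData.ext, C.proj_left, (hw X).2, mul_smul_comm, mul_one]

lemma push_snd_ext {a : C.A X} (w : C.A Z) {q : ℚ} (ha : HasDegree C a q) :
    C.push (snd X Z) (C.ext a w) = q • w := by
  rw [TheoryData.ext, C.proj_right, (ha Z).1, smul_mul_assoc, one_mul]

lemma ext_mul_ext (a a' : C.A X) (b b' : C.A Z) :
    C.ext a b * C.ext a' b' = C.ext (a * a') (b * b') := by
  simp only [TheoryData.ext, map_mul]
  rw [mul_assoc, ← mul_assoc (C.pull (snd X Z) b), ch_comm C (C.pull (snd X Z) b), mul_assoc,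
    ← mul_assoc]

lemma ext_one_right (a : C.A X) : C.ext a (1 : C.A Z) = C.pull (fst X Z) a := by
  rw [TheoryData.ext, map_one, mul_one]

lemma ext_one_left (b : C.A Z) : C.ext (1 : C.A X) b = C.pull (snd X Z) b := by
  rw [TheoryData.ext, map_one, one_mul]

lemma ext_smul_right (q : ℚ) (a : C.A X) (b : C.A Z) : C.ext a (q • b) = q • C.ext a b := by
  rw [TheoryData.ext, TheoryData.ext, map_smul, mul_smul_comm]

lemma ext_smul_left (q : ℚ) (a : C.A X) (b : C.A Z) : C.ext (q • a) b = q • C.ext a b := by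
  rw [TheoryData.ext, TheoryData.ext, map_smul, smul_mul_assoc]

/-- Base change for the square over `X × Y ⟶ Y`. -/
lemma push_fst_t23 (u : C.A (Y.prod Z)) :
    C.push (fst (X.prod Y) Z) (C.pull (t23 X Y Z) u) =
      C.pull (snd X Y) (C.push (fst Y Z) u) := by
  have e1 : aI X Y Z ≫ prodMap (𝟙 X) (fst Y Z) = fst (X.prod Y) Z := by
    apply prod_ext <;> simp [aI, prodMap, comp_lift]
  have e2 : aI X Y Z ≫ snd X (Y.prod Z) = t23 X Y Z := by
    apply prod_ext <;> simp [aI, t23, prodMap, comp_lift]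
  rw [C.base_snd, push_model C (aI X Y Z) (aJ X Y Z) aI_aJ aJ_aI, ← C.pull_comp, e1, e2]

lemma pow_mem {l : ℤ} {h : C.A X} (hh : h ∈ C.gr X l) (j : ℕ) : h ^ j ∈ C.gr X (j * l) := by
  induction j with
  | zero => simpa using C.one_mem X
  | succ j ih =>
    rw [pow_succ]
    have := C.mul_mem ih hh
    rwa [show (j : ℤ) * l + l = ((j + 1 : ℕ) : ℤ) * l by push_cast; ring] at this

lemma smul_eq_zero_of_one {q : ℚ} (hq : q ≠ 0) (h : q • (1 : C.A X) = 0) (x : C.A X) : x = 0 := by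
  have h1 : (1 : C.A X) = 0 := by
    rw [← one_smul ℚ (1 : C.A X), ← inv_mul_cancel₀ hq, mul_smul, h, smul_zero]
  rw [← one_mul x, h1, zero_mul]

/-- If the degree of a multiple of a class of nonzero degree is zero, the multiple is zero. -/
lemma smul_eq_zero_of_degree {x : C.A X} {q r : ℚ} (hx : HasDegree C x q) (hq : q ≠ 0)
    (h : HasDegree C (r • x) 0) (y : C.A X) : r • y = 0 := by
  by_cases hr : r = 0
  · rw [hr, zero_smul]
  · have h1 := (hd_smul hx r X).1
    rw [(h X).1, zero_smul] at h1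
    exact smul_eq_zero_of_one (mul_ne_zero hr hq) h1.symm _

/-! ### Primitive classes -/

/-- The class `a` is primitive: all `a h^j` have degree zero. -/
def Prim (h a : C.A X) : Prop := ∀ j : ℕ, HasDegree C (a * h ^ j) 0

lemma prim_of_mem {h a : C.A X} {i : ℤ} (hh : h ∈ C.gr X 1) (ha : a ∈ C.gr X i)
    (h0 : ∀ j : ℕ, i + j = X.dim → HasDegree C (a * h ^ j) 0) : Prim h a := by
  intro j
  by_cases hj : i + j = X.dim
  · exact h0 j hj
  · have := C.mul_mem ha (pow_mem hh j)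
    rw [mul_one] at this
    exact hasDegree_of_ne this hj

lemma biPrim_ext {h a : C.A X} {h' w : C.A Z} (ha : Prim h a) (hw : Prim h' w) :
    BiPrim C h h' (C.ext a w) := by
  intro j
  constructor
  · have h1 : C.ext a w * C.pull (fst X Z) (h ^ j) = C.ext (a * h ^ j) w := by
      rw [← ext_one_right (Z := Z) (h ^ j), ext_mul_ext, mul_one]
    change C.push _ (C.ext a w * C.pull (fst X Z) (h ^ j)) = 0
    rw [h1, push_snd_ext _ (ha j), zero_smul]
  · have h1 : C.ext a w * C.pull (snd X Z) (h' ^ j) = C.ext a (w * h' ^ j) := by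
      rw [← ext_one_left (X := X) (h' ^ j), ext_mul_ext, mul_one]
    change C.push _ (C.ext a w * C.pull (snd X Z) (h' ^ j)) = 0
    rw [h1, push_fst_ext _ (hw j), zero_smul]

/-- Splitting off the multiple of `h^i`. -/
lemma exists_prim {d : ℕ} (hd : d ≠ 0) {h a : C.A X} (hh : h ∈ C.gr X 1)
    (ht : HasDegree C (h ^ X.dim) d) {i : ℕ} (hi : i ≤ X.dim) (ha : a ∈ C.gr X i) :
    ∃ q : ℚ, Prim h (a - q • h ^ i) := by
  have hmem : a * h ^ (X.dim - i) ∈ C.gr X X.dim := by
    have := C.mul_mem ha (pow_mem hh (X.dim - i))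
    rwa [mul_one, show (i : ℤ) + ((X.dim - i : ℕ) : ℤ) = X.dim by omega] at this
  obtain ⟨r, hr⟩ := exists_hasDegree hmem
  have hd' : (d : ℚ) ≠ 0 := by exact_mod_cast hd
  have hhi : h ^ i ∈ C.gr X i := by simpa using pow_mem hh i
  refine ⟨r / d, prim_of_mem (i := i) hh (Submodule.sub_mem _ ha (Submodule.smul_mem _ _ hhi))
    fun j hj => ?_⟩
  have hj' : j = X.dim - i := by omega
  subst hj'
  rw [sub_mul, smul_mul_assoc, ← pow_add, Nat.add_sub_cancel' hi]
  have := hd_sub hr (hd_smul ht (r / d))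
  rwa [div_mul_cancel₀ _ hd', sub_self] at this

lemma spanned_iff {d : ℕ} (hd : d ≠ 0) {h : C.A X} (hh : h ∈ C.gr X 1)
    (ht : HasDegree C (h ^ X.dim) d) {i : ℕ} (hi : i ≤ X.dim) :
    Spanned C h i ↔ ∀ a ∈ C.gr X i, Prim h a → a = 0 := by
  constructor
  · intro hs a ha hp
    obtain ⟨q, rfl⟩ := hs a ha
    have h1 := hp (X.dim - i)
    rw [smul_mul_assoc, ← pow_add, Nat.add_sub_cancel' hi] at h1
    exact smul_eq_zero_of_degree ht (by exact_mod_cast hd) h1 _
  · intro hs a ha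
    obtain ⟨q, hq⟩ := exists_prim hd hh ht hi ha
    have hhi : h ^ i ∈ C.gr X i := by simpa using pow_mem hh i
    exact ⟨q, sub_eq_zero.1 (hs _ (Submodule.sub_mem _ ha (Submodule.smul_mem _ _ hhi)) hq)⟩

end Pool.Agent.Run7.H634.HC
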