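import Pool.Agent.Run7.h634.HC.Join

/-!
# Products with a curve and with a surface
-/

set_option autoImplicit false

open CategoryTheory AlgebraicGeometry

universe u v

namespace Pool.Agent.Run7.H634.HC

open Pool.Agent.H914 Pool.Agent.H914.VarClass Pool.Agent.H914.VarClass.Obj Pool.Agent.W492.BB
  Pool.Agent.W550.Corr Pool.Agent.TH133

set_option linter.unusedSectionVars false

variable {k : Type u} [Field k] {𝒱 : VarClass k} {C : TheoryData.{u, v, 0} 𝒱 ℚ}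
  [hC : IsChowProj C] {W X Y Z J P : 𝒱.Obj} {d : ℕ} {h : C.A X} {h' : C.A Z}
  {𝓗 : ∀ X : 𝒱.Obj, C.A X → Prop}

include hC

omit hC in
/-- The primitive projector of a curve. -/
noncomputable def pr (C : TheoryData.{u, v, 0} 𝒱 ℚ) (d : ℕ) {Z : 𝒱.Obj} (h' : C.A Z) :
    C.A (Z.prod Z) :=
  dg C Z - (d : ℚ)⁻¹ • (C.ext h' 1 + C.ext 1 h')

lemma pr_mem (hZ1 : Z.dim = 1) (hh' : h' ∈ C.gr Z 1) : pr C d h' ∈ C.gr (Z.prod Z) 1 := by
  have h1 := dg_mem (C := C) Z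
  rw [hZ1] at h1
  refine Submodule.sub_mem _ (by exact_mod_cast h1)
    (Submodule.smul_mem _ _ (Submodule.add_mem _ ?_ ?_))
  · have := ext_mem' hh' (C.one_mem Z)
    rwa [add_zero] at this
  · have := ext_mem' (C.one_mem Z) hh'
    rwa [zero_add] at this

lemma dg_mul (b : C.A (Z.prod Z)) : dg C Z * b =
    C.push (Obj.lift (𝟙 Z) (𝟙 Z)) (C.pull (Obj.lift (𝟙 Z) (𝟙 Z)) b) := by
  rw [dg, TheoryData.graph, ← C.proj_right, one_mul]

lemma pull_diag_ext (a b : C.A Z) : C.pull (Obj.lift (𝟙 Z) (𝟙 Z)) (C.ext a b) = a * b := by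
  rw [TheoryData.ext, map_mul, ← C.pull_comp, ← C.pull_comp, lift_fst, lift_snd, C.pull_id,
    C.pull_id]

/-- The action of the projector on a zero-cycle. -/
lemma pr_act (hd : d ≠ 0) (hZ1 : Z.dim = 1) (hh' : h' ∈ C.gr Z 1) (ht' : HasDegree C h' d)
    {w : C.A Z} (hw : w ∈ C.gr Z 1) :
    C.push (fst Z Z) (pr C d h' * C.pull (snd Z Z) w) ∈ C.gr Z 1 ∧
      HasDegree C (C.push (fst Z Z) (pr C d h' * C.pull (snd Z Z) w)) 0 := by
  have hd' : (d : ℚ) ≠ 0 := by exact_mod_cast hd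
  obtain ⟨r, hr⟩ := exists_hasDegree (C := C) (X := Z) (x := w) (by rw [hZ1]; exact_mod_cast hw)
  have h2 : h' * w = 0 := hC.gr_top Z 2 _ (C.mul_mem hh' hw) (by rw [hZ1]; norm_num)
  have h3 : C.push (fst Z Z) (dg C Z * C.pull (snd Z Z) w) = w := by
    rw [← act_tp, tp_dg, act_dg]
  have h4 : C.push (fst Z Z) (pr C d h' * C.pull (snd Z Z) w) = w - (d : ℚ)⁻¹ • (r • h') := by
    rw [pr, sub_mul, smul_mul_assoc, add_mul, map_sub, map_smul, map_add, h3,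
      ← ext_one_left (X := Z) w, ext_mul_ext, ext_mul_ext, mul_one, one_mul, mul_one, h2,
      TheoryData.ext_zero_right, map_zero, add_zero, push_fst_ext _ hr]
  rw [h4]
  refine ⟨Submodule.sub_mem _ hw (Submodule.smul_mem _ _ (Submodule.smul_mem _ _ hh')), ?_⟩
  have h5 := hd_sub hr (hd_smul (hd_smul ht' r) (d : ℚ)⁻¹)
  rwa [show r - (d : ℚ)⁻¹ * (r * d) = 0 by field_simp; ring] at h5

/-- The self-intersection number of the projector. -/
lemma pr_deg (hd : d ≠ 0) (hZ1 : Z.dim = 1) (hh' : h' ∈ C.gr Z 1) (ht' : HasDegree C h' d)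
    {s : ℚ} (hs : HasDegree C (dg C Z * dg C Z) s) :
    HasDegree C (pr C d h' * pr C d h') (s - 2) := by
  have hd' : (d : ℚ) ≠ 0 := by exact_mod_cast hd
  have h2 : h' * h' = 0 := hC.gr_top Z 2 _ (C.mul_mem hh' hh') (by rw [hZ1]; norm_num)
  have h3 : HasDegree C (dg C Z * C.ext h' 1) d := by
    rw [dg_mul, hasDegree_push_iff, pull_diag_ext, mul_one]
    exact ht'
  have h4 : HasDegree C (dg C Z * C.ext 1 h') d := by
    rw [dg_mul, hasDegree_push_iff, pull_diag_ext, one_mul]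
    exact ht'
  have h5 : HasDegree C (C.ext h' h') (d * d) := by
    rw [← hasDegree_push_iff (fst Z Z), push_fst_ext _ ht']
    exact hd_smul ht' _
  have h6 : (C.ext h' 1 + C.ext 1 h') * (C.ext h' 1 + C.ext 1 h') =
      C.ext h' h' + C.ext h' h' := by
    rw [add_mul, mul_add, mul_add, ext_mul_ext, ext_mul_ext, ext_mul_ext, ext_mul_ext]
    simp only [mul_one, one_mul]
    rw [h2, TheoryData.ext_zero_left, TheoryData.ext_zero_right, zero_add, add_zero]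
  have h7 : pr C d h' * pr C d h' = dg C Z * dg C Z -
      (d : ℚ)⁻¹ • (dg C Z * C.ext h' 1 + dg C Z * C.ext 1 h' +
        (dg C Z * C.ext h' 1 + dg C Z * C.ext 1 h')) +
      ((d : ℚ)⁻¹ * (d : ℚ)⁻¹) • (C.ext h' h' + C.ext h' h') := by
    rw [← h6, pr, sub_mul, mul_sub, mul_sub, mul_smul_comm, smul_mul_assoc, mul_smul_comm,
      smul_mul_assoc, ch_comm C (C.ext h' 1 + C.ext 1 h') (dg C Z), smul_smul]
    rw [smul_add _ (_ + _) (_ + _), mul_add (dg C Z)]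
    abel
  rw [h7]
  have h8 := hd_add (hd_sub hs (hd_smul (hd_add (hd_add h3 h4) (hd_add h3 h4)) (d : ℚ)⁻¹))
    (hd_smul (hd_add h5 h5) ((d : ℚ)⁻¹ * (d : ℚ)⁻¹))
  rwa [show s - (d : ℚ)⁻¹ * (d + d + (d + d)) + (d : ℚ)⁻¹ * (d : ℚ)⁻¹ * (d * d + d * d) = s - 2 by
    field_simp; ring] at h8

/-- **The law of the three defects, for one class.** -/
lemma three (hBS : BlochSrinivas C) (h𝓗 : IsHyperClass C d 𝓗) (hd : 3 ≤ d) (hX : 𝓗 X h)
    (hZ : 𝓗 Z h') (hZ1 : Z.dim = 1) (hs : HasDegree C (dg C Z * dg C Z) (3 * d - d ^ 2))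
    {i : ℕ} {a : C.A X} (ha : a ∈ C.gr X i)
    (Hgen : ∀ ω ∈ C.gr Z 1, HasDegree C ω 0 → C.ext a ω = 0)
    (Hcl : ∀ α ∈ C.gr (X.prod Z) i, BiPrim C h h' α → α = 0) : a = 0 := by
  have hd0 : d ≠ 0 := by omega
  have hh' : h' ∈ C.gr Z 1 := h𝓗.deg_one hZ
  have ht' : HasDegree C h' d := by
    have := h𝓗.top hZ
    rwa [hZ1, pow_one] at this
  set p := pr C d h' with hp
  set x := C.pull (fst (X.prod Z) Z) (C.pull (fst X Z) a) * C.pull (t23 X Z Z) p with hx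
  have hxm : x ∈ C.gr ((X.prod Z).prod Z) (i + 1) :=
    C.mul_mem (C.pull_mem _ (C.pull_mem _ ha)) (C.pull_mem _ (pr_mem hZ1 hh'))
  have hsnd : ∀ w : C.A Z, C.pull (snd (X.prod Z) Z) w = C.pull (t23 X Z Z) (C.pull (snd Z Z) w) := by
    intro w
    rw [← C.pull_comp, t23_snd]
  have h1 : ∀ w : C.A Z, C.Deg 1 w →
      C.down (fst (X.prod Z) Z) (C.mul x (C.up (snd (X.prod Z) Z) w)) = 0 := by
    intro w hw
    change C.push (fst (X.prod Z) Z) (x * C.pull (snd (X.prod Z) Z) w) = 0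
    obtain ⟨h2, h3⟩ := pr_act hd0 hZ1 hh' ht' hw
    rw [hx, hsnd, mul_assoc, ← map_mul, C.proj_left, push_fst_t23]
    exact Hgen _ h2 h3
  have h2 := hBS (X.prod Z) Z hZ1 (i + 1) x hxm h1
  let L : C.A ((X.prod Z).prod Z) →ₗ[ℚ] C.A X :=
    C.push (fst X Z) ∘ₗ C.push (fst (X.prod Z) Z) ∘ₗ LinearMap.mulRight ℚ (C.pull (t23 X Z Z) p)
  have hL : ∀ z, L z = C.push (fst X Z) (C.push (fst (X.prod Z) Z) (z * C.pull (t23 X Z Z) p)) :=
    fun _ => rfl
  have h3 : ∀ z ∈ Submodule.span ℚ {z : C.A ((X.prod Z).prod Z) | ∃ (y : C.A (X.prod Z))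
      (w : C.A Z), C.Deg ((i : ℤ) + 1 - 1) y ∧ C.Deg 1 w ∧ z = C.ext y w}, L z = 0 := by
    intro z hz
    induction hz using Submodule.span_induction with
    | mem z hz =>
      obtain ⟨y, w, hy, hw, rfl⟩ := hz
      obtain ⟨h4, h5⟩ := pr_act hd0 hZ1 hh' ht' hw
      rw [hL, TheoryData.ext, hsnd, mul_assoc, ← map_mul, C.proj_left, push_fst_t23,
        ch_comm C (C.pull (snd Z Z) w)]
      have hy' : y ∈ C.gr (X.prod Z) i := by
        have : C.Deg ((i : ℤ) + 1 - 1) y := hy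
        rwa [add_sub_cancel_right] at this
      exact push_zero h𝓗 hd0 hX hZ hZ1 Hcl hy' h4 h5
    | zero => exact map_zero L
    | add z z' _ _ hz hz' => rw [map_add, hz, hz', add_zero]
    | smul r z _ hz => rw [map_smul, hz, smul_zero]
  have h4 := h3 x h2
  have h5 := pr_deg hd0 hZ1 hh' ht' hs
  rw [hL, hx, mul_assoc, ← map_mul, C.proj_left, push_fst_t23] at h4
  change C.push (fst X Z) (C.ext a (C.push (fst Z Z) (p * p))) = 0 at h4
  rw [push_fst_ext a ((hasDegree_push_iff _ _ _).2 h5)] at h4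
  have h6 : (3 * (d : ℚ) - d ^ 2 - 2) ≠ 0 := by
    have h7 : (3 : ℚ) ≤ d := by exact_mod_cast hd
    intro h8
    nlinarith
  rw [← one_smul ℚ a, ← inv_mul_cancel₀ h6, mul_smul, h4, smul_zero]

lemma prim_curve (hZ1 : Z.dim = 1) (hh' : h' ∈ C.gr Z 1) {ω : C.A Z} (hω : ω ∈ C.gr Z 1)
    (h0 : HasDegree C ω 0) : Prim h' ω := by
  refine prim_of_mem hh' hω fun j hj => ?_
  have : j = 0 := by omega
  rw [this, pow_zero, mul_one]
  exact h0

/-- The three-term law for defects at least two. -/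
lemma three_holds (hBS : BlochSrinivas C) (h𝓗 : IsHyperClass C d 𝓗) (hd : 3 ≤ d) (e : ℕ)
    (h1 : HoldsFor C 𝓗 (e + 1) Any) (h2 : HoldsFor C 𝓗 (e + 3) Any) :
    HoldsFor C 𝓗 (e + 2) Any := by
  intro X h hX _ i hi
  have hd0 : d ≠ 0 := by omega
  obtain ⟨Z, h', hZ, hZ1, hs⟩ := h𝓗.curve
  rw [spanned_iff hd0 (h𝓗.deg_one hX) (h𝓗.top hX) (by omega)]
  intro a ha hp
  refine three hBS h𝓗 hd hX hZ hZ1 hs ha (fun ω hω h0 => ?_) (fun α hα hb => ?_)
  · refine biPrim_zero h𝓗 hd0 hX hZ (i := i + 1) (by omega) (fun J g hg hJ => ?_)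
      (by exact_mod_cast ext_mem' ha hω) (biPrim_ext hp (prim_curve hZ1 (h𝓗.deg_one hZ) hω h0))
    exact h1 J g hg trivial (i + 1 + 1) (by omega)
  · refine biPrim_zero h𝓗 hd0 hX hZ (by omega) (fun J g hg hJ => ?_) hα hb
    exact h2 J g hg trivial (i + 1) (by omega)

/-- The three-term law for the defect one. -/
lemma three_middle (hBS : BlochSrinivas C) (h𝓗 : IsHyperClass C d 𝓗) (hd : 3 ≤ d) (D : ℕ → Prop)
    (h1 : MiddleFor C 𝓗 D) (h2 : HoldsFor C 𝓗 2 Any) : HoldsFor C 𝓗 1 (fun n => D (n + 3)) := by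
  intro X h hX hD i hi
  have hd0 : d ≠ 0 := by omega
  obtain ⟨Z, h', hZ, hZ1, hs⟩ := h𝓗.curve
  rw [spanned_iff hd0 (h𝓗.deg_one hX) (h𝓗.top hX) (by omega)]
  intro a ha hp
  refine three hBS h𝓗 hd hX hZ hZ1 hs ha (fun ω hω h0 => ?_) (fun α hα hb => ?_)
  · obtain ⟨J, P, g, π, q, hg, hj⟩ := h𝓗.join hX hZ
    apply join_zero hd0 hj (biPrim_ext hp (prim_curve hZ1 (h𝓗.deg_one hZ) hω h0))
    have hJ : J.dim = 2 * (i + 2) := by rw [hj.dim_J]; omega
    have h3 := h1 J g hg (by rw [hj.dim_J, hZ1]; exact hD) (i + 2) hJ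
    have h4 : C.push q (C.pull π (C.ext a ω)) ∈ algPower C J 1 (i + 2) := by
      refine Submodule.subset_span ⟨Z, ω, C.push (Obj.lift (π ≫ snd X Z) q)
        (C.pull π (C.pull (fst X Z) a)), CurveCycle.one Z ω hZ1 (by exact_mod_cast hω) h0, ?_, ?_⟩
      · have h5 := C.push_mem (Obj.lift (π ≫ snd X Z) q)
          (C.pull_mem π (C.pull_mem (fst X Z) ha))
        have e5 : (i : ℤ) + 1 * (((Z.prod J).dim : ℤ) - P.dim) = ((i + 2 : ℕ) : ℤ) := by
          rw [dim_prod, hj.dim_P, hj.dim_J, hZ1]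
          push_cast
          ring
        rw [e5] at h5
        exact h5
      · have e6 : C.pull (Obj.lift (π ≫ snd X Z) q) (C.pull (fst Z J) ω) =
            C.pull π (C.pull (snd X Z) ω) := by
          rw [← C.pull_comp, lift_fst, C.pull_comp]
        rw [TheoryData.act_apply, ← C.proj_right, ← C.push_comp, lift_snd, e6, ← map_mul]
        rfl
    rw [h3] at h4
    exact (Submodule.mem_bot _).1 h4
  · refine biPrim_zero h𝓗 hd0 hX hZ (by omega) (fun J g hg hJ => ?_) hα hb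
    exact h2 J g hg trivial (i + 1) (by omega)

/-- The shift by a variety of even dimension. -/
lemma shift (h𝓗 : IsHyperClass C d 𝓗) (hd : d ≠ 0) (e : ℕ) (D : ℕ → Prop) {m : ℕ} (hm : 1 ≤ m)
    (H : HoldsFor C 𝓗 e D) : HoldsFor C 𝓗 e (fun n => D (n + 2 * m + 2)) := by
  intro X h hX hD i hi
  obtain ⟨Z, h', ζ, r, hZ, hZ2, hζ, hζh, hr, hζζ⟩ := h𝓗.even m hm
  have hh' : h' ∈ C.gr Z 1 := h𝓗.deg_one hZ
  rw [spanned_iff hd (h𝓗.deg_one hX) (h𝓗.top hX) (by omega)]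
  intro a ha hp
  have h1 : Prim h' ζ := by
    refine prim_of_mem hh' hζ fun j hj => ?_
    have : j = m := by omega
    rw [this]
    exact hζh
  have h2 : C.ext a ζ = 0 := by
    refine biPrim_zero h𝓗 hd hX hZ (i := i + m) (by omega) (fun J g hg hJ => ?_)
      (by exact_mod_cast ext_mem' ha hζ) (biPrim_ext hp h1)
    exact H J g hg (by rw [hJ, hZ2]; exact hD) (i + m + 1) (by omega)
  have h3 : C.push (fst X Z) (C.ext a ζ * C.ext 1 ζ) = r • a := by
    rw [ext_mul_ext, mul_one, push_fst_ext _ hζζ]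
  rw [h2, zero_mul, map_zero] at h3
  rw [← one_smul ℚ a, ← inv_mul_cancel₀ hr, mul_smul, ← h3, smul_zero]

end Pool.Agent.Run7.H634.HC
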