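import Pool.Agent.TH133.Defs

/-!
# Hartshorne's conjecture on the Chow groups of hypersurfaces: definitions
-/

set_option autoImplicit false

open CategoryTheory AlgebraicGeometry

universe u v

namespace Pool.Agent.Run7.H634.HC

open Pool.Agent.H914 Pool.Agent.H914.VarClass Pool.Agent.H914.VarClass.Obj Pool.Agent.W492.BB
  Pool.Agent.W550.Corr Pool.Agent.TH133

variable {k : Type u} [Field k] {𝒱 : VarClass k} (C : TheoryData.{u, v, 0} 𝒱 ℚ)

/-- The cycle class `α` on `X × Z` is primitive in both factors: for all `j` the push-forward of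
`α · (h^j × 1)` to `Z` and the push-forward of `α · (1 × h'^j)` to `X` are zero. -/
def BiPrim {X Z : 𝒱.Obj} (h : C.A X) (h' : C.A Z) (α : C.A (X.prod Z)) : Prop :=
  ∀ j : ℕ, C.down (snd X Z) (C.mul α (C.up (fst X Z) (h ^ j))) = 0 ∧
    C.down (fst X Z) (C.mul α (C.up (snd X Z) (h' ^ j))) = 0

/-- The intersection theory of a join. In the intended use `X` and `Z` are smooth hypersurfaces of
degree `d` with the equations `F(x) = 0` and `G(y) = 0`, `J` is the hypersurface `F(x) + G(y) = 0`,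
`h`, `h'` and `g` are the hyperplane classes, `P` is the variety of the triples `(x, z, p)` such that
`p` is on the line joining `x ∈ X` and `z ∈ Z` (this line is contained in `J`), and `π(x, z, p) = (x, z)`,
`q(x, z, p) = p`. Here `P` is the projective bundle of the lines in `O(-1, 0) ⊕ O(0, -1)`, hence
`π_* (q^* g)^(k+1) = ∑ h^a × h'^(k-a)`; and `π_* q^* q_* π^* α = - d α` if `α` is primitive in both
factors, because `P` is a divisor in the blow-up of `J` in `X ⊔ Z`, with a normal bundle which has degree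
`- d` on the lines. -/
structure IsJoin (d : ℕ) {X Z J P : 𝒱.Obj} (h : C.A X) (h' : C.A Z) (g : C.A J)
    (π : P ⟶ X.prod Z) (q : P ⟶ J) : Prop where
  dim_J : J.dim = X.dim + Z.dim + 2
  dim_P : P.dim = X.dim + Z.dim + 1
  powers : ∀ m : ℕ, C.down π (C.up q g ^ (m + 1)) =
    ∑ a ∈ Finset.range (m + 1), C.ext (h ^ a) (h' ^ (m - a))
  self : ∀ α, BiPrim C h h' α →
    C.down π (C.up q (C.down q (C.up π α))) = (-(d : ℚ)) • α

/-- The properties of the class of the smooth hypersurfaces of degree `d ≥ 3` with their hyperplane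
classes (`𝓗 X h`: `X` is a smooth hypersurface of degree `d` in a projective space of dimension
`dim X + 1 ≥ 2` and `h` is the class of a hyperplane section) which are used:

* the degree of `h ^ dim X` is `d`;
* the class contains the joins;
* there is a curve in the class whose diagonal has the self-intersection number `3 d - d ^ 2`
  (`= 2 - 2 g` for a smooth plane curve of degree `d`);
* for all `m ≥ 1` there is a variety of dimension `2 m` in the class with a class `ζ ∈ CH^m` such that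
  `ζ h^m` has degree zero and `ζ ^ 2` has a nonzero degree (for instance the difference of two disjoint
  linear subspaces on the Fermat hypersurface). -/
structure IsHyperClass (d : ℕ) (𝓗 : ∀ X : 𝒱.Obj, C.A X → Prop) : Prop where
  deg_one : ∀ {X : 𝒱.Obj} {h : C.A X}, 𝓗 X h → C.Deg 1 h
  top : ∀ {X : 𝒱.Obj} {h : C.A X}, 𝓗 X h → HasDegree C (h ^ X.dim) d
  join : ∀ {X Z : 𝒱.Obj} {h : C.A X} {h' : C.A Z}, 𝓗 X h → 𝓗 Z h' →
    ∃ (J P : 𝒱.Obj) (g : C.A J) (π : P ⟶ X.prod Z) (q : P ⟶ J), 𝓗 J g ∧ IsJoin C d h h' g π q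
  curve : ∃ (Z : 𝒱.Obj) (h : C.A Z), 𝓗 Z h ∧ Z.dim = 1 ∧
    HasDegree C (dg C Z * dg C Z) (3 * d - d ^ 2)
  even : ∀ m : ℕ, 1 ≤ m → ∃ (Z : 𝒱.Obj) (h ζ : C.A Z) (r : ℚ), 𝓗 Z h ∧ Z.dim = 2 * m ∧
    C.Deg m ζ ∧ HasDegree C (ζ * h ^ m) 0 ∧ r ≠ 0 ∧ HasDegree C (ζ * ζ) r

/-- The properties of the classes `𝓗 d` of the smooth hypersurfaces of degree `d` with their
hyperplane classes: those of `IsHyperClass` for `d ≥ 3`, and every `X` in `𝓗 d` has a covering
`f : X' ⟶ X`, `f_* f^* = r ≠ 0`, `f^* h = m h'`, with `X'` in `𝓗 (d m)` of the same dimension (if `X` is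
`F(x) = 0`, in general coordinates, then `X'` is `F(x_0^m, x_1^m, …) = 0`). -/
structure IsHyperFamily (𝓗 : ℕ → ∀ X : 𝒱.Obj, C.A X → Prop) : Prop where
  hyper : ∀ d, 3 ≤ d → IsHyperClass C d (𝓗 d)
  cover : ∀ d m, 1 ≤ d → 1 ≤ m → ∀ (X : 𝒱.Obj) (h : C.A X), 𝓗 d X h →
    ∃ (X' : 𝒱.Obj) (h' : C.A X') (f : X' ⟶ X) (r : ℚ), 𝓗 (d * m) X' h' ∧ X'.dim = X.dim ∧
      r ≠ 0 ∧ (∀ a, C.down f (C.up f a) = r • a) ∧ C.up f h = (m : ℚ) • h'

/-- The theorem of Bloch and Srinivas for families over curves (`k` is algebraically closed and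
uncountable, the coefficients are rational): if `x ∈ CH^j(Y × Z)`, where `Z` is a curve, acts as zero on
the zero-cycles of `Z` (for points: the restriction of `x` to `Y × z` is zero for all points `z` of `Z`),
then `x` is a sum of cycles `y × w` with `y ∈ CH^(j-1)(Y)` and zero-cycles `w` on `Z`. -/
def BlochSrinivas : Prop :=
  ∀ (Y Z : 𝒱.Obj), Z.dim = 1 → ∀ (j : ℤ) (x : C.A (Y.prod Z)), C.Deg j x →
    (∀ w : C.A Z, C.Deg 1 w → C.down (fst Y Z) (C.mul x (C.up (snd Y Z) w)) = 0) →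
    x ∈ Submodule.span ℚ {z | ∃ (y : C.A Y) (w : C.A Z), C.Deg (j - 1) y ∧ C.Deg 1 w ∧
      z = C.ext y w}

/-- `CH^i(X) = ℚ h^i`. -/
def Spanned {X : 𝒱.Obj} (h : C.A X) (i : ℕ) : Prop :=
  ∀ a : C.A X, C.Deg i a → ∃ q : ℚ, a = q • h ^ i

/-- Hartshorne's equality `CH^i(X) = ℚ h^i` holds for all `X` in the class and all `i` with
`dim X - 2 i = e`, if `dim X` has the property `D`. -/
def HoldsFor (𝓗 : ∀ X : 𝒱.Obj, C.A X → Prop) (e : ℕ) (D : ℕ → Prop) : Prop :=
  ∀ (X : 𝒱.Obj) (h : C.A X), 𝓗 X h → D X.dim → ∀ i : ℕ, X.dim = 2 * i + e → Spanned C h i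

/-- The algebraically trivial cycles of codimension `i` on the varieties of dimension `2 i` in the class
are zero in the Chow group with rational coefficients, if `2 i` has the property `D`. -/
def MiddleFor (𝓗 : ∀ X : 𝒱.Obj, C.A X → Prop) (D : ℕ → Prop) : Prop :=
  ∀ (X : 𝒱.Obj) (h : C.A X), 𝓗 X h → D X.dim → ∀ i : ℕ, X.dim = 2 * i → algPower C X 1 i = ⊥

/-- Hartshorne's conjecture for the varieties in the class whose dimension has the property `D`. -/
def Hartshorne (𝓗 : ∀ X : 𝒱.Obj, C.A X → Prop) (D : ℕ → Prop) : Prop :=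
  ∀ (X : 𝒱.Obj) (h : C.A X), 𝓗 X h → D X.dim → ∀ i : ℕ, 2 * i < X.dim → Spanned C h i

/-- All numbers. -/
def Any (_ : ℕ) : Prop := True

/-- There are arbitrarily large numbers with the property `D` which are congruent to `e` modulo two. -/
def Unbounded (D : ℕ → Prop) (e : ℕ) : Prop := ∀ N : ℕ, ∃ n ≥ N, D n ∧ n % 2 = e % 2

/-- For every `d ≥ 1` and `N` there are a multiple `d'` of `d` and an odd `n ≥ N` such that `(d', n)` is
in `T`. -/
def Cofinal (T : ℕ → ℕ → Prop) : Prop :=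
  ∀ d N : ℕ, 1 ≤ d → ∃ d' n : ℕ, T d' n ∧ d ∣ d' ∧ 1 ≤ d' ∧ N ≤ n ∧ n % 2 = 1

/-- The power `X ^ (r + 1)`. -/
noncomputable def pow (X : 𝒱.Obj) : ℕ → 𝒱.Obj
  | 0 => X
  | r + 1 => (pow X r).prod X

/-- The external power `a × ⋯ × a` (`r + 1` factors) on `X ^ (r + 1)`. -/
noncomputable def epow {X : 𝒱.Obj} (a : C.A X) : (r : ℕ) → C.A (pow X r)
  | 0 => a
  | r + 1 => C.ext (epow a r) a

/-- For all `X` in the class and all `i` with `dim X - 2 i = e`, every class in `CH^i(X)` is the sum of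
a multiple of `h^i` and a smash nilpotent class `b`: the external power `b × ⋯ × b` with `r + 1` factors
is zero. -/
def NilpotentFor (𝓗 : ∀ X : 𝒱.Obj, C.A X → Prop) (e r : ℕ) : Prop :=
  ∀ (X : 𝒱.Obj) (h : C.A X), 𝓗 X h → ∀ i : ℕ, X.dim = 2 * i + e → ∀ a : C.A X, C.Deg i a →
    ∃ q : ℚ, epow C (a - q • h ^ i) r = 0

end Pool.Agent.Run7.H634.HC
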