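import Pool.Agent.Run7.h634.HC.Base

/-!
# Joins
-/

set_option autoImplicit false

open CategoryTheory AlgebraicGeometry

universe u v

namespace Pool.Agent.Run7.H634.HC

open Pool.Agent.H914 Pool.Agent.H914.VarClass Pool.Agent.H914.VarClass.Obj Pool.Agent.W492.BB
  Pool.Agent.W550.Corr Pool.Agent.TH133

set_option linter.unusedSectionVars false

variable {k : Type u} [Field k] {𝒱 : VarClass k} {C : TheoryData.{u, v, 0} 𝒱 ℚ}
  [hC : IsChowProj C] {W X Y Z J P : 𝒱.Obj} {d : ℕ} {h : C.A X} {h' : C.A Z} {g : C.A J}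
  {π : P ⟶ X.prod Z} {q : P ⟶ J}

include hC

lemma join_prim (hj : IsJoin C d h h' g π q) {α : C.A (X.prod Z)} (hα : BiPrim C h h' α) :
    Prim g (C.push q (C.pull π α)) := by
  intro m
  have h1 : C.push q (C.pull π α) * g ^ m = C.push q (C.pull π α * (C.pull q g) ^ m) := by
    rw [← map_pow, C.proj_right]
  rw [h1, hasDegree_push_iff, ← hasDegree_push_iff π, C.proj_left]
  cases m with
  | zero =>
    rw [pow_zero]
    have h2 := C.push_mem π (C.one_mem P)
    rw [C.gr_neg _ _ (by rw [hj.dim_P, dim_prod]; push_cast; omega)] at h2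
    rw [(Submodule.mem_bot _).1 h2, mul_zero]
    exact hasDegree_zero
  | succ m =>
    have h2 : C.push π (C.pull q g ^ (m + 1)) =
      ∑ a ∈ Finset.range (m + 1), C.ext (h ^ a) (h' ^ (m - a)) := hj.powers m
    rw [h2, Finset.mul_sum]
    apply hd_sum
    intro a _
    have h3 : C.push (snd X Z) (α * C.pull (fst X Z) (h ^ a)) = 0 := (hα a).1
    rw [← hasDegree_push_iff (snd X Z), TheoryData.ext, ← mul_assoc, C.proj_right, h3, zero_mul]
    exact hasDegree_zero

lemma join_mem (hj : IsJoin C d h h' g π q) {α : C.A (X.prod Z)} {i : ℤ}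
    (hα : α ∈ C.gr (X.prod Z) i) : C.push q (C.pull π α) ∈ C.gr J (i + 1) := by
  have := C.push_mem q (C.pull_mem π hα)
  rwa [hj.dim_J, hj.dim_P, show i + 1 * (((X.dim + Z.dim + 2 : ℕ) : ℤ) -
    ((X.dim + Z.dim + 1 : ℕ) : ℤ)) = i + 1 by push_cast; ring] at this

lemma join_zero (hd : d ≠ 0) (hj : IsJoin C d h h' g π q) {α : C.A (X.prod Z)}
    (hα : BiPrim C h h' α) (h0 : C.push q (C.pull π α) = 0) : α = 0 := by
  have h1 : C.push π (C.pull q (C.push q (C.pull π α))) = (-(d : ℚ)) • α := hj.self α hα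
  rw [h0, map_zero, map_zero] at h1
  have hd' : (-(d : ℚ)) ≠ 0 := neg_ne_zero.2 (by exact_mod_cast hd)
  rw [← one_smul ℚ α, ← inv_mul_cancel₀ hd', mul_smul, ← h1, smul_zero]

variable {𝓗 : ∀ X : 𝒱.Obj, C.A X → Prop}

/-- Hartshorne's equality for the joins gives the vanishing of the primitive classes on the
product. -/
lemma biPrim_zero (h𝓗 : IsHyperClass C d 𝓗) (hd : d ≠ 0) (hX : 𝓗 X h) (hZ : 𝓗 Z h') {i : ℕ}
    (hi : i + 1 ≤ X.dim + Z.dim + 2)
    (H : ∀ (J : 𝒱.Obj) (g : C.A J), 𝓗 J g → J.dim = X.dim + Z.dim + 2 → Spanned C g (i + 1))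
    {α : C.A (X.prod Z)} (hm : α ∈ C.gr (X.prod Z) i) (hα : BiPrim C h h' α) : α = 0 := by
  obtain ⟨J, P, g, π, q, hg, hj⟩ := h𝓗.join hX hZ
  apply join_zero hd hj hα
  have h1 := (spanned_iff hd (h𝓗.deg_one hg) (h𝓗.top hg) (i := i + 1)
    (by rw [hj.dim_J]; exact hi)).1 (H J g hg hj.dim_J)
  exact h1 _ (by exact_mod_cast join_mem hj hm) (join_prim hj hα)

lemma hasDegree_curve (hZ1 : Z.dim = 1) {l : ℤ} {c ω : C.A Z} (hc : c ∈ C.gr Z l)
    (hω : ω ∈ C.gr Z 1) (h0 : HasDegree C ω 0) : HasDegree C (c * ω) 0 := by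
  by_cases hl : l = 0
  · subst hl
    obtain ⟨r, rfl⟩ := hC.gr_zero Z c hc
    rw [smul_mul_assoc, one_mul]
    have := hd_smul h0 r
    rwa [mul_zero] at this
  · exact hasDegree_of_ne (C.mul_mem hc hω) (by rw [hZ1]; push_cast; omega)

/-- On the product with a curve the vanishing of the classes which are primitive in both factors
implies the vanishing of the action on the zero-cycles of degree zero of the curve. -/
lemma push_zero (h𝓗 : IsHyperClass C d 𝓗) (hd : d ≠ 0) (hX : 𝓗 X h) (hZ : 𝓗 Z h')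
    (hZ1 : Z.dim = 1) {i : ℤ}
    (H : ∀ α ∈ C.gr (X.prod Z) i, BiPrim C h h' α → α = 0)
    {y : C.A (X.prod Z)} (hy : y ∈ C.gr (X.prod Z) i) {ω : C.A Z} (hω : ω ∈ C.gr Z 1)
    (h0 : HasDegree C ω 0) : C.push (fst X Z) (y * C.pull (snd X Z) ω) = 0 := by
  have hd' : (d : ℚ) ≠ 0 := by exact_mod_cast hd
  have hh : h ∈ C.gr X 1 := h𝓗.deg_one hX
  have hh' : h' ∈ C.gr Z 1 := h𝓗.deg_one hZ
  have ht : HasDegree C (h ^ X.dim) d := h𝓗.top hX
  have ht' : HasDegree C h' d := by
    have := h𝓗.top hZ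
    rwa [hZ1, pow_one] at this
  have hone : HasDegree C (1 : C.A Z) 0 := hasDegree_of_ne (C.one_mem Z) (by rw [hZ1]; simp)
  have htwo : ∀ c : C.A Z, c ∈ C.gr Z 1 → h' * c = 0 := fun c hc =>
    hC.gr_top Z 2 _ (C.mul_mem hh' hc) (by rw [hZ1]; norm_num)
  have hpt : ∀ j : ℕ, 2 ≤ j → h' ^ j = 0 := fun j hj => by
    have := pow_mem hh' j
    exact hC.gr_top Z _ _ this (by rw [hZ1]; push_cast; omega)
  have hph : ∀ l : ℕ, HasDegree C (h ^ l) (if l = X.dim then (d : ℚ) else 0) := by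
    intro l
    split_ifs with hl
    · rw [hl]; exact ht
    · have := pow_mem hh l
      rw [mul_one] at this
      exact hasDegree_of_ne this (by exact_mod_cast hl)
  set b0 := C.push (fst X Z) (y * C.pull (snd X Z) h') with hb0
  set b1 := C.push (fst X Z) y with hb1
  set y1 := y - (d : ℚ)⁻¹ • (C.ext b0 1 + C.ext b1 h') with hy1
  have hb0m : b0 ∈ C.gr X i := by
    have := C.push_mem (fst X Z) (C.mul_mem hy (C.pull_mem (snd X Z) hh'))
    rwa [dim_prod, hZ1, show i + 1 + 1 * ((X.dim : ℤ) - ((X.dim + 1 : ℕ) : ℤ)) = i by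
      push_cast; ring] at this
  have hb1m : b1 ∈ C.gr X (i - 1) := by
    have := C.push_mem (fst X Z) hy
    rwa [dim_prod, hZ1, show i + 1 * ((X.dim : ℤ) - ((X.dim + 1 : ℕ) : ℤ)) = i - 1 by
      push_cast; ring] at this
  have hy1m : y1 ∈ C.gr (X.prod Z) i := by
    refine Submodule.sub_mem _ hy (Submodule.smul_mem _ _ (Submodule.add_mem _ ?_ ?_))
    · have := ext_mem' hb0m (C.one_mem Z)
      rwa [add_zero] at this
    · have := ext_mem' hb1m hh'
      rwa [sub_add_cancel] at this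
  have hA : ∀ j : ℕ, C.push (fst X Z) (y1 * C.pull (snd X Z) (h' ^ j)) = 0 := by
    intro j
    rcases j with _ | _ | j
    · rw [pow_zero, map_one, mul_one, hy1, map_sub, map_smul, map_add, push_fst_ext b0 hone,
        push_fst_ext b1 ht', zero_smul, zero_add, smul_smul, inv_mul_cancel₀ hd', one_smul, ← hb1,
        sub_self]
    · rw [zero_add, pow_one, hy1, sub_mul, smul_mul_assoc, add_mul, ← ext_one_left (X := X) h',
        ext_mul_ext, ext_mul_ext, mul_one, one_mul, mul_one, htwo h' hh', ext_one_left, map_sub,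
        map_smul, map_add, push_fst_ext b0 ht', TheoryData.ext_zero_right, map_zero, add_zero,
        smul_smul, inv_mul_cancel₀ hd', one_smul, ← hb0, sub_self]
    · rw [hpt _ (by omega), map_zero, mul_zero, map_zero]
  set c : ℕ → C.A Z := fun m => C.push (snd X Z) (y1 * C.pull (fst X Z) (h ^ m)) with hc
  have hcm : ∀ m : ℕ, c m ∈ C.gr Z (i + m - X.dim) := by
    intro m
    have := C.push_mem (snd X Z) (C.mul_mem hy1m (C.pull_mem (fst X Z) (pow_mem hh m)))
    rwa [dim_prod, hZ1, show i + (m : ℤ) * 1 + 1 * (((1 : ℕ) : ℤ) - ((X.dim + 1 : ℕ) : ℤ)) =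
      i + m - X.dim by push_cast; ring] at this
  set y2 := y1 - (d : ℚ)⁻¹ • ∑ m ∈ Finset.range (X.dim + 1), C.ext (h ^ (X.dim - m)) (c m) with hy2
  have hy2m : y2 ∈ C.gr (X.prod Z) i := by
    refine Submodule.sub_mem _ hy1m (Submodule.smul_mem _ _ (Submodule.sum_mem _ fun m hm => ?_))
    rw [Finset.mem_range] at hm
    have := ext_mem' (pow_mem hh (X.dim - m)) (hcm m)
    rwa [show ((X.dim - m : ℕ) : ℤ) * 1 + (i + m - X.dim) = i by
      rw [Nat.cast_sub (by omega)]; ring] at this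
  have hy2p : BiPrim C h h' y2 := by
    intro j
    constructor
    · change C.push (snd X Z) (y2 * C.pull (fst X Z) (h ^ j)) = 0
      have h1 : ∀ m ∈ Finset.range (X.dim + 1), C.push (snd X Z)
          (C.ext (h ^ (X.dim - m)) (c m) * C.pull (fst X Z) (h ^ j)) =
          if m = j then (d : ℚ) • c m else 0 := by
        intro m hm
        rw [Finset.mem_range] at hm
        rw [← ext_one_right (Z := Z) (h ^ j), ext_mul_ext, mul_one, ← pow_add,
          push_snd_ext _ (hph _)]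
        by_cases hmj : m = j
        · rw [if_pos (by omega), if_pos hmj]
        · rw [if_neg (by omega), if_neg hmj, zero_smul]
      rw [hy2, sub_mul, smul_mul_assoc, Finset.sum_mul, map_sub, map_smul, map_sum,
        Finset.sum_congr rfl h1, Finset.sum_ite_eq']
      split_ifs with hjr
      · rw [smul_smul, inv_mul_cancel₀ hd', one_smul]
        exact sub_self _
      · rw [smul_zero, sub_zero]
        rw [Finset.mem_range] at hjr
        have h2 : h ^ j = 0 := hC.gr_top X _ _ (pow_mem hh j) (by omega)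
        rw [h2, map_zero, mul_zero, map_zero]
    · change C.push (fst X Z) (y2 * C.pull (snd X Z) (h' ^ j)) = 0
      rw [hy2, sub_mul, smul_mul_assoc, Finset.sum_mul, map_sub, map_smul, map_sum, hA j, zero_sub,
        neg_eq_zero, Finset.sum_eq_zero, smul_zero]
      intro m _
      rw [← ext_one_left (X := X) (h' ^ j), ext_mul_ext, mul_one]
      have h2 : HasDegree C (c m * h' ^ j) 0 := by
        have h3 : c m * h' ^ j = C.push (snd X Z) (y1 * C.pull (fst X Z) (h ^ m) *
            C.pull (snd X Z) (h' ^ j)) := by rw [C.proj_right]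
        rw [h3, hasDegree_push_iff, ← hasDegree_push_iff (fst X Z), mul_assoc,
          ch_comm C (C.pull (fst X Z) (h ^ m)), ← mul_assoc, C.proj_right, hA j, zero_mul]
        exact hasDegree_zero
      rw [push_fst_ext _ h2, zero_smul]
  have h2 : y2 = 0 := H y2 hy2m hy2p
  have h3 : y1 = (d : ℚ)⁻¹ • ∑ m ∈ Finset.range (X.dim + 1), C.ext (h ^ (X.dim - m)) (c m) :=
    sub_eq_zero.1 (hy2.symm.trans h2)
  have h4 : C.push (fst X Z) (y1 * C.pull (snd X Z) ω) = 0 := by
    rw [h3, smul_mul_assoc, Finset.sum_mul, map_smul, map_sum, Finset.sum_eq_zero, smul_zero]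
    intro m _
    rw [← ext_one_left (X := X) ω, ext_mul_ext, mul_one,
      push_fst_ext _ (hasDegree_curve hZ1 (hcm m) hω h0), zero_smul]
  have h5 : y = y1 + (d : ℚ)⁻¹ • (C.ext b0 1 + C.ext b1 h') := by rw [hy1, sub_add_cancel]
  rw [h5, add_mul, map_add, h4, zero_add, smul_mul_assoc, add_mul, ← ext_one_left (X := X) ω,
    ext_mul_ext, ext_mul_ext, mul_one, one_mul, mul_one, htwo ω hω, TheoryData.ext_zero_right,
    add_zero, map_smul, push_fst_ext _ h0, zero_smul, smul_zero]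

end Pool.Agent.Run7.H634.HC
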