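import Pool.Agent.Run7.h634.HC.Curve

/-!
# The laws for the defects
-/

set_option autoImplicit false

open CategoryTheory AlgebraicGeometry

universe u v

namespace Pool.Agent.Run7.H634.HC

open Pool.Agent.H914 Pool.Agent.H914.VarClass Pool.Agent.H914.VarClass.Obj Pool.Agent.W492.BB
  Pool.Agent.W550.Corr Pool.Agent.TH133

set_option linter.unusedSectionVars false

variable {k : Type u} [Field k] {𝒱 : VarClass k} {C : TheoryData.{u, v, 0} 𝒱 ℚ}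
  [hC : IsChowProj C] {W X Y Z J P : 𝒱.Obj} {d : ℕ} {h : C.A X} {h' : C.A Z}
  {𝓗 : ∀ X : 𝒱.Obj, C.A X → Prop}

include hC

lemma prim_smul {a : C.A X} (ha : Prim h a) (r : ℚ) : Prim h (r • a) := by
  intro j
  rw [smul_mul_assoc]
  have := hd_smul (ha j) r
  rwa [mul_zero] at this

/-- The iterated joins. -/
lemma iterate (h𝓗 : IsHyperClass C d 𝓗) (hd : d ≠ 0) (hX : 𝓗 X h) {i e : ℕ}
    (hi : X.dim = 2 * i + e) {a : C.A X} (ha : a ∈ C.gr X i) (hp : Prim h a) (r : ℕ) :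
    ∃ (J : 𝒱.Obj) (g b : C.A J) (Θ : C.A (J.prod (pow X r))) (s : ℕ), 𝓗 J g ∧ b ∈ C.gr J s ∧
      Prim g b ∧ J.dim = 2 * s + (r + 1) * e ∧ C.act Θ b = epow C a r := by
  induction r with
  | zero => exact ⟨X, h, a, dg C X, i, hX, ha, hp, by rw [hi]; ring, act_dg C a⟩
  | succ r ih =>
    obtain ⟨J, g, b, Θ, s, hg, hb, hpb, hJ, hΘ⟩ := ih
    obtain ⟨J', P, g', π, q, hg', hj⟩ := h𝓗.join hg hX
    have hd' : (-(d : ℚ)) ≠ 0 := neg_ne_zero.2 (by exact_mod_cast hd)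
    have hbi := biPrim_ext hpb hp
    refine ⟨J', g', (-(d : ℚ))⁻¹ • C.push q (C.pull π (C.ext b a)),
      C.comp (C.comp (C.cograph q) (C.graph π)) (tens C Θ (dg C X)), s + i + 1, hg', ?_, ?_, ?_, ?_⟩
    · have := join_mem hj (ext_mem' hb ha)
      exact Submodule.smul_mem _ _ (by exact_mod_cast this)
    · exact prim_smul (join_prim hj hbi) _
    · rw [hj.dim_J, hJ, hi]
      ring
    · have h1 : C.push π (C.pull q (C.push q (C.pull π (C.ext b a)))) = (-(d : ℚ)) • C.ext b a :=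
        hj.self _ hbi
      have h2 : C.act (tens C Θ (dg C X)) (C.ext b a) = C.ext (C.act Θ b) (C.act (dg C X) a) :=
        act_tens_ext C Θ (dg C X) (fun f c => ch_comm C _ _) b a
      rw [C.act_comp, C.act_comp, C.act_cograph, C.act_graph, map_smul, map_smul, h1, smul_smul,
        inv_mul_cancel₀ hd', one_smul]
      rw [hΘ, act_dg] at h2
      exact h2

/-- Smash nilpotence. -/
lemma nilpotent (h𝓗 : IsHyperClass C d 𝓗) (hd : d ≠ 0) (e r : ℕ)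
    (H : HoldsFor C 𝓗 ((r + 1) * e) Any) : NilpotentFor C 𝓗 e r := by
  intro X h hX i hi a ha
  have hh := h𝓗.deg_one hX
  obtain ⟨q, hq⟩ := exists_prim hd hh (h𝓗.top hX) (i := i) (by omega) ha
  refine ⟨q, ?_⟩
  have hhi : h ^ i ∈ C.gr X i := by
    have := pow_mem hh i
    rwa [mul_one] at this
  obtain ⟨J, g, b, Θ, s, hg, hb, hpb, hJ, hΘ⟩ := iterate h𝓗 hd hX hi
    (Submodule.sub_mem _ ha (Submodule.smul_mem _ q hhi)) hq r
  have h1 := (spanned_iff hd (h𝓗.deg_one hg) (h𝓗.top hg) (i := s) (by omega)).1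
    (H J g hg trivial s hJ) b hb hpb
  rw [← hΘ, h1, C.act_map_zero]

/-- Infinitely many dimensions suffice. -/
lemma holds_any (h𝓗 : IsHyperClass C d 𝓗) (hd : d ≠ 0) (e : ℕ) (D : ℕ → Prop)
    (hD : Unbounded D e) (H : HoldsFor C 𝓗 e D) : HoldsFor C 𝓗 e Any := by
  intro X h hX _ i hi
  obtain ⟨n, hn, hDn, hne⟩ := hD (X.dim + 4)
  obtain ⟨m, rfl⟩ : ∃ m, n = X.dim + 2 * (m + 1) + 2 := ⟨(n - X.dim - 4) / 2, by omega⟩
  exact shift h𝓗 hd e D (m := m + 1) (by omega) H X h hX hDn i hi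

/-- All defects from the odd ones. -/
lemma hartshorne_of_odd (hBS : BlochSrinivas C) (h𝓗 : IsHyperClass C d 𝓗) (hd : 3 ≤ d)
    (H : ∀ e, e % 2 = 1 → HoldsFor C 𝓗 e Any) : Hartshorne C 𝓗 Any := by
  intro X h hX _ i hi
  by_cases he : X.dim % 2 = 1
  · exact H (X.dim - 2 * i) (by omega) X h hX trivial i (by omega)
  · obtain ⟨e, he'⟩ : ∃ e, X.dim = 2 * i + (e + 2) := ⟨X.dim - 2 * i - 2, by omega⟩
    exact three_holds hBS h𝓗 hd e (H (e + 1) (by omega)) (H (e + 3) (by omega)) X h hX trivial i he'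

lemma spanned_of_cover {X' : 𝒱.Obj} {h' : C.A X'} (f : X' ⟶ X) {r m : ℚ} (hr : r ≠ 0) (hm : m ≠ 0)
    (hf : ∀ a, C.push f (C.pull f a) = r • a) (hh : C.pull f h = m • h') {i : ℕ}
    (H : Spanned C h' i) : Spanned C h i := by
  intro a ha
  obtain ⟨q, hq⟩ := H (C.pull f a) (C.pull_mem f ha)
  have h1 : C.pull f (h ^ i) = m ^ i • h' ^ i := by rw [map_pow, hh, smul_pow]
  have h2 : h' ^ i = (m ^ i)⁻¹ • C.pull f (h ^ i) := by
    rw [h1, smul_smul, inv_mul_cancel₀ (pow_ne_zero _ hm), one_smul]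
  have h3 := hf a
  rw [hq, h2, map_smul, map_smul, hf] at h3
  refine ⟨r⁻¹ * (q * ((m ^ i)⁻¹ * r)), ?_⟩
  rw [← one_smul ℚ a, ← inv_mul_cancel₀ hr, mul_smul, ← h3]
  simp only [smul_smul]

variable {𝓕 : ℕ → ∀ X : 𝒱.Obj, C.A X → Prop}

/-- The whole conjecture from a cofinal set of degrees and dimensions. -/
lemma hartshorne_of_cofinal (hBS : BlochSrinivas C) (h𝓕 : IsHyperFamily C 𝓕) (T : ℕ → ℕ → Prop)
    (hT : Cofinal T) (H : ∀ d, 1 ≤ d → Hartshorne C (𝓕 d) (T d)) (d : ℕ) (hd : 1 ≤ d) :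
    Hartshorne C (𝓕 d) Any := by
  have key : ∀ d, 3 ≤ d → Hartshorne C (𝓕 d) Any := by
    intro d hd
    refine hartshorne_of_odd hBS (h𝓕.hyper d hd) hd fun e he X h hX _ i hi => ?_
    obtain ⟨d', n, hTn, ⟨m, rfl⟩, hd1, hn, hn1⟩ := hT d (X.dim + 4) (by omega)
    have hm : 1 ≤ m := Nat.pos_of_ne_zero (by rintro rfl; simp at hd1)
    have hd3 : 3 ≤ d * m := hd.trans (Nat.le_mul_of_pos_right d hm)
    obtain ⟨l, rfl⟩ : ∃ l, n = X.dim + 2 * (l + 1) + 2 := ⟨(n - X.dim - 4) / 2, by omega⟩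
    obtain ⟨X', h', f, r, hX', hdim, hr, hf, hfh⟩ := h𝓕.cover d m (by omega) hm X h hX
    have h1 : HoldsFor C (𝓕 (d * m)) e (T (d * m)) := by
      intro Y h2 hY hTY j hj
      exact H (d * m) hd1 Y h2 hY hTY j (by omega)
    have h2 := shift (h𝓕.hyper _ hd3) (by omega) e _ (m := l + 1) (by omega) h1 X' h' hX'
      (by rw [hdim]; exact hTn) i (by rw [hdim]; exact hi)
    exact spanned_of_cover f hr (by exact_mod_cast (by omega : m ≠ 0)) hf hfh h2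
  intro X h hX _ i hi
  obtain ⟨X', h', f, r, hX', hdim, hr, hf, hfh⟩ := h𝓕.cover d 3 hd (by omega) X h hX
  have h2 := key (d * 3) (by omega) X' h' hX' trivial i (by rw [hdim]; exact hi)
  exact spanned_of_cover f hr (by norm_num) hf hfh h2

/-- **The laws for the defects.** -/
theorem main (hBS : BlochSrinivas C) (h𝓕 : IsHyperFamily C 𝓕) :
    (∀ d : ℕ, 3 ≤ d → (∀ (e : ℕ) (D : ℕ → Prop), Unbounded D e → HoldsFor C (𝓕 d) e D →
        HoldsFor C (𝓕 d) e Any) ∧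
      (∀ e : ℕ, 2 ≤ e → HoldsFor C (𝓕 d) (e - 1) Any → HoldsFor C (𝓕 d) (e + 1) Any →
        HoldsFor C (𝓕 d) e Any) ∧
      (∀ D : ℕ → Prop, Unbounded D 0 → MiddleFor C (𝓕 d) D → HoldsFor C (𝓕 d) 2 Any →
        HoldsFor C (𝓕 d) 1 Any)) ∧
    (∀ T : ℕ → ℕ → Prop, Cofinal T → (∀ d, 1 ≤ d → Hartshorne C (𝓕 d) (T d)) →
      ∀ d, 1 ≤ d → Hartshorne C (𝓕 d) Any) := by
  refine ⟨fun d hd => ⟨fun e D => holds_any (h𝓕.hyper d hd) (by omega) e D,
    fun e he h1 h2 => ?_, fun D hD h1 h2 => ?_⟩, hartshorne_of_cofinal hBS h𝓕⟩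
  · obtain ⟨e, rfl⟩ := Nat.exists_eq_add_of_le' he
    exact three_holds hBS (h𝓕.hyper d hd) hd e h1 h2
  · refine holds_any (h𝓕.hyper d hd) (by omega) 1 _ (fun N => ?_)
      (three_middle hBS (h𝓕.hyper d hd) hd D h1 h2)
    obtain ⟨n, hn, hDn, hn0⟩ := hD (N + 3)
    exact ⟨n - 3, by omega, by rwa [Nat.sub_add_cancel (by omega)], by omega⟩

/-- **Products.** -/
theorem products (hd : 3 ≤ d) (h𝓗 : IsHyperClass C d 𝓗) (e : ℕ) :
    (HoldsFor C 𝓗 e Any → ∀ (X Z : 𝒱.Obj) (h : C.A X) (h' : C.A Z), 𝓗 X h → 𝓗 Z h' →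
      ∀ (i : ℕ) (α : C.A (X.prod Z)), X.dim + Z.dim = 2 * i + e → C.Deg i α →
        BiPrim C h h' α → α = 0) ∧
    (∀ r : ℕ, HoldsFor C 𝓗 ((r + 1) * e) Any → NilpotentFor C 𝓗 e r) := by
  refine ⟨fun H X Z h h' hX hZ i α hi hm hα => ?_, nilpotent h𝓗 (by omega) e⟩
  refine biPrim_zero h𝓗 (by omega) hX hZ (by omega) (fun J g hg hJ => ?_) hm hα
  exact H J g hg trivial (i + 1) (by omega)

end Pool.Agent.Run7.H634.HC
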