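import Pool.Agent.Run7.h634.HC.Defs

/-!
# Pencils of hyperplane sections: definitions
-/

set_option autoImplicit false

open CategoryTheory AlgebraicGeometry

universe u v

namespace Pool.Agent.Run7.H634.HC

open Pool.Agent.H914 Pool.Agent.H914.VarClass Pool.Agent.H914.VarClass.Obj Pool.Agent.W492.BB
  Pool.Agent.W550.Corr Pool.Agent.TH133

variable {k : Type u} [Field k] {𝒱 : VarClass k} (C : TheoryData.{u, v, 0} 𝒱 ℚ)

/-- `CH^i(X) = ℚ h^i` for all `X` of dimension `n` in the class. -/
def Equality (𝓗 : ∀ X : 𝒱.Obj, C.A X → Prop) (n i : ℕ) : Prop :=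
  ∀ (X : 𝒱.Obj) (h : C.A X), 𝓗 X h → X.dim = n → Spanned C h i

/-- The properties of the pencils of hyperplane sections which are used. The field `k` is
algebraically closed, uncountable and of characteristic zero, the coefficients are rational.

In the intended use `𝓗 X h` says that `X` is a smooth hypersurface of degree `d` (of positive dimension)
and `h` is the class of its hyperplane sections, and `𝓠 X h E` says that either `𝓗 X h` and all `E i` are
zero, or that `X` has dimension at least two and is the blow-up of the node of a hypersurface `X_0` of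
degree `d` with exactly one singular point, an ordinary double point, `h` is the pull-back of the class
of the hyperplane sections, and `E i` is the space of the classes in `CH^i(X)` which are supported on the
exceptional divisor `D` (a quadric).

`pencil`: Let `a ∈ CH^(i+1)(X)` have the restriction zero to the smooth hyperplane sections `Y` of `X_0`
(which do not contain the node, so that `f : Y ⟶ X` is defined and `f_* 1 = h`, `f^* h` is the class of the
hyperplane sections of `Y`). In a general pencil all members but finitely many are such `Y`, the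
members which do not contain the node of `X_0` have at most one node, and the member through the node of
`X_0` has only this node. By the theorem of Bloch and Srinivas for the pencil `a` is the sum of classes
supported on the members, that is, of a class supported on `D` and classes `f_* y`, where `f : Y ⟶ X` is
the resolution of a member. Here `f_* 1 - h` is zero or the class of `- D`, and the classes `f_* ε`, with
`ε ∈ E' j` and `j < dim Y`, are zero or supported on `D`, because the exceptional divisor of `Y` is mapped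
to a point or into `D`. -/
structure IsPencilClass (d : ℕ) (𝓗 : ∀ X : 𝒱.Obj, C.A X → Prop)
    (𝓠 : ∀ X : 𝒱.Obj, C.A X → (ℕ → Submodule ℚ (C.A X)) → Prop) : Prop where
  smooth : ∀ {X : 𝒱.Obj} {h : C.A X}, 𝓗 X h → 𝓠 X h fun _ => ⊥
  deg_one : ∀ {X : 𝒱.Obj} {h : C.A X} {E : ℕ → Submodule ℚ (C.A X)}, 𝓠 X h E → C.Deg 1 h
  top : ∀ {X : 𝒱.Obj} {h : C.A X} {E : ℕ → Submodule ℚ (C.A X)}, 𝓠 X h E →
    HasDegree C (h ^ X.dim) d
  mul : ∀ {X : 𝒱.Obj} {h : C.A X} {E : ℕ → Submodule ℚ (C.A X)}, 𝓠 X h E →
    ∀ (i : ℕ) (ε : C.A X), ε ∈ E i → C.mul h ε = 0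
  pencil : ∀ {X : 𝒱.Obj} {h : C.A X} {E : ℕ → Submodule ℚ (C.A X)}, 𝓠 X h E → 3 ≤ X.dim →
    ∀ (i : ℕ) (a : C.A X), C.Deg (i + 1) a →
      (∀ (Y : 𝒱.Obj) (f : Y ⟶ X), 𝓗 Y (C.up f h) → Y.dim + 1 = X.dim → C.down f 1 = h →
        C.up f a = 0) →
      a ∈ E (i + 1) ⊔ Submodule.span ℚ {z | ∃ (Y : 𝒱.Obj) (f : Y ⟶ X)
        (E' : ℕ → Submodule ℚ (C.A Y)) (y : C.A Y), 𝓠 Y (C.up f h) E' ∧ Y.dim + 1 = X.dim ∧
          C.down f 1 - h ∈ E 1 ∧
          (∀ j : ℕ, j < Y.dim → ∀ ε ∈ E' j, C.down f ε ∈ E (j + 1)) ∧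
          C.Deg i y ∧ z = C.down f y}

/-- `CH^i(X) = ℚ h^i + E i` for all `(X, h, E)` in the class with `dim X = n`. -/
def NodalEquality (𝓠 : ∀ X : 𝒱.Obj, C.A X → (ℕ → Submodule ℚ (C.A X)) → Prop) (n i : ℕ) : Prop :=
  ∀ (X : 𝒱.Obj) (h : C.A X) (E : ℕ → Submodule ℚ (C.A X)), 𝓠 X h E → X.dim = n →
    ∀ a : C.A X, C.Deg i a → ∃ q : ℚ, a - q • h ^ i ∈ E i

end Pool.Agent.Run7.H634.HC
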