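import Pool.Agent.Run7.h634.HC.Main
import Pool.Agent.Run7.h634.HC.PenDefs

/-!
# Pencils
-/

set_option autoImplicit false

open CategoryTheory AlgebraicGeometry

universe u v

namespace Pool.Agent.Run7.H634.HC

open Pool.Agent.H914 Pool.Agent.H914.VarClass Pool.Agent.H914.VarClass.Obj Pool.Agent.W492.BB
  Pool.Agent.W550.Corr Pool.Agent.TH133

set_option linter.unusedSectionVars false

variable {k : Type u} [Field k] {𝒱 : VarClass k} {C : TheoryData.{u, v, 0} 𝒱 ℚ}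
  [hC : IsChowProj C] {W X Y Z : 𝒱.Obj} {d : ℕ}
  {𝓗 : ∀ X : 𝒱.Obj, C.A X → Prop} {𝓠 : ∀ X : 𝒱.Obj, C.A X → (ℕ → Submodule ℚ (C.A X)) → Prop}

include hC

lemma prim_restrict {h a : C.A X} (ha : Prim h a) (f : Y ⟶ X) (hf : C.push f 1 = h) :
    Prim (C.pull f h) (C.pull f a) := by
  intro j
  rw [← map_pow, ← map_mul, ← hasDegree_push_iff f, ← mul_one (C.pull f (a * h ^ j)),
    ch_comm C (C.pull f (a * h ^ j)), C.proj_right, hf, ch_comm C h, mul_assoc, ← pow_succ]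
  exact ha (j + 1)

lemma equality_zero (n : ℕ) : Equality C 𝓗 n 0 := by
  intro X h _ _ a ha
  obtain ⟨q, hq⟩ := hC.gr_zero X a (by exact_mod_cast ha)
  exact ⟨q, by rw [hq, pow_zero]⟩

lemma nodal_zero (n : ℕ) : NodalEquality C 𝓠 n 0 := by
  intro X h E _ _ a ha
  obtain ⟨q, hq⟩ := hC.gr_zero X a (by exact_mod_cast ha)
  refine ⟨q, ?_⟩
  rw [hq, pow_zero, sub_self]
  exact Submodule.zero_mem _

lemma equality_of_nodal (hP : IsPencilClass C d 𝓗 𝓠) {n i : ℕ} (H : NodalEquality C 𝓠 n i) :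
    Equality C 𝓗 n i := by
  intro X h hX hn a ha
  obtain ⟨q, hq⟩ := H X h _ (hP.smooth hX) hn a ha
  exact ⟨q, sub_eq_zero.1 ((Submodule.mem_bot _).1 hq)⟩

/-- The step in codimension `i + 1`. -/
lemma nodal_step (hP : IsPencilClass C d 𝓗 𝓠) (hd : d ≠ 0) {n i : ℕ} (hn : 2 ≤ n) (hi : i + 1 ≤ n)
    (H1 : Equality C 𝓗 n (i + 1)) (H2 : NodalEquality C 𝓠 n i) :
    NodalEquality C 𝓠 (n + 1) (i + 1) := by
  intro X h E hX hdim a ha
  have hh : h ∈ C.gr X 1 := hP.deg_one hX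
  obtain ⟨q, hq⟩ := exists_prim hd hh (hP.top hX) (i := i + 1) (by omega) ha
  have hhi : h ^ (i + 1) ∈ C.gr X ((i + 1 : ℕ) : ℤ) := by
    have := pow_mem hh (i + 1)
    rwa [mul_one] at this
  have ha' : a - q • h ^ (i + 1) ∈ C.gr X ((i + 1 : ℕ) : ℤ) :=
    Submodule.sub_mem _ ha (Submodule.smul_mem _ _ hhi)
  have key := hP.pencil hX (by omega) i (a - q • h ^ (i + 1)) (by exact_mod_cast ha')
    (fun Y f hY hYd hf => by
      have h1 : C.pull f (a - q • h ^ (i + 1)) ∈ C.gr Y ((i + 1 : ℕ) : ℤ) := C.pull_mem f ha'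
      exact (spanned_iff hd (hP.deg_one (hP.smooth hY)) (hP.top (hP.smooth hY)) (i := i + 1)
        (by omega)).1 (H1 Y _ hY (by omega)) _ h1 (prim_restrict hq f hf))
  obtain ⟨ε, hε, z, hz, hs⟩ := Submodule.mem_sup.1 key
  have hz' : z ∈ E (i + 1) ⊔ Submodule.span ℚ {h ^ (i + 1)} := by
    refine Submodule.span_le.2 ?_ hz
    rintro _ ⟨Y, f, E', y, hY, hYd, hf1, hfE, hy, rfl⟩
    obtain ⟨r, hr⟩ := H2 Y (C.up f h) E' hY (by omega) y (by exact_mod_cast hy)
    have h1 : C.push f y = r • (h ^ i * C.push f 1) + C.push f (y - r • (C.pull f h) ^ i) := by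
      have h2 : C.push f ((C.pull f h) ^ i) = h ^ i * C.push f 1 := by
        rw [← map_pow, ← mul_one (C.pull f (h ^ i)), C.proj_left]
      rw [map_sub, map_smul, h2]
      abel
    have h2 : h ^ i * C.push f 1 ∈ E (i + 1) ⊔ Submodule.span ℚ {h ^ (i + 1)} := by
      have h3 : h ^ i * C.push f 1 = h ^ i * (C.push f 1 - h) + h ^ (i + 1) := by
        rw [mul_sub, ← pow_succ, sub_add_cancel]
      rw [h3]
      refine Submodule.add_mem _ (Submodule.mem_sup_left ?_)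
        (Submodule.mem_sup_right (Submodule.mem_span_singleton_self _))
      cases i with
      | zero => simpa using hf1
      | succ l =>
        have h4 : h * (C.push f 1 - h) = 0 := hP.mul hX 1 _ hf1
        rw [pow_succ, mul_assoc, h4, mul_zero]
        exact Submodule.zero_mem _
    change C.push f y ∈ _
    rw [h1]
    exact Submodule.add_mem _ (Submodule.smul_mem _ _ h2)
      (Submodule.mem_sup_left (hfE i (by omega) _ hr))
  obtain ⟨ε', hε', w, hw, hs'⟩ := Submodule.mem_sup.1 hz'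
  obtain ⟨t, rfl⟩ := Submodule.mem_span_singleton.1 hw
  refine ⟨q + t, ?_⟩
  have h5 : a - (q + t) • h ^ (i + 1) = ε + ε' := by
    have h6 : a = ε + (ε' + t • h ^ (i + 1)) + q • h ^ (i + 1) := by
      rw [hs', hs, sub_add_cancel]
    rw [h6, add_smul]
    abel
  rw [h5]
  exact Submodule.add_mem _ hε hε'

/-- **Pencils.** The equality in the codimensions `j ≤ I` and the dimensions `2 j + e` implies the one in
the codimensions `i ≤ I` and the dimensions `n ≥ 2 i + e`. -/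
lemma pencils (hP : IsPencilClass C d 𝓗 𝓠) (hd : d ≠ 0) (e I : ℕ)
    (H : ∀ j, 1 ≤ j → j ≤ I → Equality C 𝓗 (2 * j + e) j) :
    ∀ i, i ≤ I → (∀ n, 2 * i + e ≤ n → Equality C 𝓗 n i) ∧
      ∀ n, 2 * i + e + 1 ≤ n → NodalEquality C 𝓠 n i := by
  intro i
  induction i with
  | zero => exact fun _ => ⟨fun n _ => equality_zero n, fun n _ => nodal_zero n⟩
  | succ i ih =>
    intro hi
    obtain ⟨-, ih2⟩ := ih (by omega)
    have h1 : ∀ m, Equality C 𝓗 (2 * (i + 1) + e + m) (i + 1) := by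
      intro m
      induction m with
      | zero => exact H (i + 1) (by omega) hi
      | succ m ihm =>
        have h2 := nodal_step hP hd (n := 2 * (i + 1) + e + m) (i := i) (by omega) (by omega) ihm
          (ih2 _ (by omega))
        exact equality_of_nodal hP h2
    refine ⟨fun n hn => ?_, fun n hn => ?_⟩
    · obtain ⟨m, rfl⟩ := Nat.exists_eq_add_of_le hn
      exact h1 m
    · obtain ⟨m, rfl⟩ := Nat.exists_eq_add_of_le hn
      have := nodal_step hP hd (n := 2 * (i + 1) + e + m) (i := i) (by omega) (by omega) (h1 m)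
        (ih2 _ (by omega))
      rwa [show 2 * (i + 1) + e + m + 1 = 2 * (i + 1) + e + 1 + m by omega] at this

variable {𝓕 : ℕ → ∀ X : 𝒱.Obj, C.A X → Prop}

/-- Joins and coverings: infinitely many codimensions and suitable degrees suffice. -/
lemma equality_of_inf (h𝓕 : IsHyperFamily C 𝓕) {d : ℕ} (hd : 1 ≤ d) (e : ℕ)
    (H : ∀ N : ℕ, ∃ d' i : ℕ, d ∣ d' ∧ 3 ≤ d' ∧ N ≤ i ∧ Equality C (𝓕 d') (2 * i + e) i) (j : ℕ) :
    Equality C (𝓕 d) (2 * j + e) j := by
  intro X h hX hdim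
  obtain ⟨d', i, ⟨m, rfl⟩, hd3, hi, hE⟩ := H (j + 2)
  have hm : 1 ≤ m := Nat.pos_of_ne_zero (by rintro rfl; simp at hd3)
  obtain ⟨l, rfl⟩ : ∃ l, i = j + (l + 1) + 1 := ⟨i - j - 2, by omega⟩
  obtain ⟨X', h', f, r, hX', hdim', hr, hf, hfh⟩ := h𝓕.cover d m hd hm X h hX
  have h1 : HoldsFor C (𝓕 (d * m)) e (fun n => n = 2 * (j + (l + 1) + 1) + e) := by
    intro Y g hY hDY s hs
    obtain rfl : s = j + (l + 1) + 1 := by omega
    exact hE Y g hY hDY
  have h2 := shift (h𝓕.hyper _ hd3) (by omega) e _ (m := l + 1) (by omega) h1 X' h' hX'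
    (by change X'.dim + 2 * (l + 1) + 2 = _; omega) j (by omega)
  exact spanned_of_cover f hr (by exact_mod_cast (by omega : m ≠ 0)) hf hfh h2

lemma all_of_inf (h𝓕 : IsHyperFamily C 𝓕) {d : ℕ} (hd : 1 ≤ d) (hP : IsPencilClass C d (𝓕 d) 𝓠)
    (e : ℕ)
    (H : ∀ N : ℕ, ∃ d' i : ℕ, d ∣ d' ∧ 3 ≤ d' ∧ N ≤ i ∧ Equality C (𝓕 d') (2 * i + e) i)
    (n i : ℕ) (hn : 2 * i + e ≤ n) : Equality C (𝓕 d) n i :=
  (pencils hP (by omega) e i (fun j _ _ => equality_of_inf h𝓕 hd e H j) i le_rfl).1 n hn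

lemma hartshorne_iff_equality (𝓗 : ∀ X : 𝒱.Obj, C.A X → Prop) :
    Hartshorne C 𝓗 Any ↔ ∀ n i : ℕ, 2 * i + 1 ≤ n → Equality C 𝓗 n i := by
  constructor
  · intro H n i hn X h hX hdim
    exact H X h hX trivial i (by omega)
  · intro H X h hX _ i hi
    exact H X.dim i (by omega) X h hX rfl

/-- The even version. -/
lemma even_version (hBS : BlochSrinivas C) (h𝓕 : IsHyperFamily C 𝓕) {d : ℕ} (hd : 3 ≤ d)
    (hP : IsPencilClass C d (𝓕 d) 𝓠)
    (H : ∀ N : ℕ, ∃ i ≥ N, Equality C (𝓕 d) (2 * i + 2) i) (D : ℕ → Prop) (hD : Unbounded D 0)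
    (hM : MiddleFor C (𝓕 d) D) : Hartshorne C (𝓕 d) Any := by
  have h2 : HoldsFor C (𝓕 d) 2 Any := by
    intro X h hX _ i hi
    exact equality_of_inf h𝓕 (by omega) 2 (fun N => by
      obtain ⟨i, hi, hE⟩ := H N
      exact ⟨d, i, dvd_rfl, hd, hi, hE⟩) i X h hX hi
  have h1 := ((main hBS h𝓕).1 d hd).2.2 D hD hM h2
  rw [hartshorne_iff_equality]
  intro n i hn
  refine (pencils hP (by omega) 1 i (fun j _ _ => ?_) i le_rfl).1 n hn
  intro X h hX hdim
  exact h1 X h hX trivial j hdim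

end Pool.Agent.Run7.H634.HC
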