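import Pool.Agent.Run7.h634.HC.PowDefs
import Pool.Agent.Run7.h634.HC.Main

/-!
# The asymptotic form and smash nilpotent classes
-/

set_option autoImplicit false

open CategoryTheory AlgebraicGeometry

universe u v

namespace Pool.Agent.Run7.H634.HC

open Pool.Agent.H914 Pool.Agent.H914.VarClass Pool.Agent.H914.VarClass.Obj Pool.Agent.W492.BB
  Pool.Agent.W550.Corr Pool.Agent.TH133

set_option linter.unusedSectionVars false

variable {k : Type u} [Field k] {𝒱 : VarClass k} {C : TheoryData.{u, v, 0} 𝒱 ℚ}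
  [hC : IsChowProj C] {W X Y Z J P : 𝒱.Obj} {d : ℕ} {h : C.A X} {h' : C.A Z}
  {𝓗 : ∀ X : 𝒱.Obj, C.A X → Prop}

include hC

lemma pull_aI_ext (a : C.A X) (b : C.A Y) (c : C.A Z) :
    C.pull (aI X Y Z) (C.ext a (C.ext b c)) = C.ext (C.ext a b) c := by
  have e1 : aI X Y Z ≫ fst X (Y.prod Z) = fst (X.prod Y) Z ≫ fst X Y := by simp [aI]
  have e2 : aI X Y Z ≫ snd X (Y.prod Z) ≫ fst Y Z = fst (X.prod Y) Z ≫ snd X Y := by simp [aI]
  have e3 : aI X Y Z ≫ snd X (Y.prod Z) ≫ snd Y Z = snd (X.prod Y) Z := by simp [aI]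
  simp only [TheoryData.ext, map_mul, ← C.pull_comp, e1, e2, e3, mul_assoc]

lemma exists_pull_epow (a : C.A X) (m r : ℕ) :
    ∃ f : pow X (m + r + 1) ⟶ (pow X m).prod (pow X r),
      C.pull f (C.ext (epow C a m) (epow C a r)) = epow C a (m + r + 1) := by
  induction r with
  | zero => exact ⟨𝟙 _, C.pull_id (X := pow X (m + 1)) _⟩
  | succ r ih =>
    obtain ⟨f, hf⟩ := ih
    refine ⟨prodMap f (𝟙 X) ≫ aI (pow X m) (pow X r) X, ?_⟩
    have h1 : epow C a (r + 1) = C.ext (epow C a r) a := rfl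
    have h2 : C.pull (aI (pow X m) (pow X r) X) (C.ext (epow C a m) (C.ext (epow C a r) a)) =
      C.ext (C.ext (epow C a m) (epow C a r)) a := pull_aI_ext _ _ _
    have h3 : C.pull (prodMap f (𝟙 X)) (C.ext (C.ext (epow C a m) (epow C a r)) a) =
      C.ext (C.pull f (C.ext (epow C a m) (epow C a r))) (C.pull (𝟙 X) a) := pull_ext C _ _ _ _
    rw [C.pull_comp]
    erw [h2, h3]
    rw [hf, C.pull_id]
    rfl

lemma exists_pull_epow_epow (a : C.A X) (r s : ℕ) :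
    ∃ (N : ℕ) (g : pow X N ⟶ pow (pow X r) s),
      C.pull g (epow C (epow C a r) s) = epow C a N := by
  induction s with
  | zero => exact ⟨r, 𝟙 _, C.pull_id (X := pow X r) _⟩
  | succ s ih =>
    obtain ⟨N, g, hg⟩ := ih
    obtain ⟨f, hf⟩ := exists_pull_epow a N r
    refine ⟨N + r + 1, f ≫ prodMap g (𝟙 (pow X r)), ?_⟩
    have h3 : C.pull (prodMap g (𝟙 (pow X r))) (C.ext (epow C (epow C a r) s) (epow C a r)) =
      C.ext (C.pull g (epow C (epow C a r) s)) (C.pull (𝟙 (pow X r)) (epow C a r)) :=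
        pull_ext C _ _ _ _
    rw [C.pull_comp]
    erw [h3]
    rw [hg, C.pull_id, hf]

lemma IsNil.of_epow {a : C.A X} {r : ℕ} (h : IsNil C (epow C a r)) : IsNil C a := by
  obtain ⟨s, hs⟩ := h
  obtain ⟨N, g, hg⟩ := exists_pull_epow_epow a r s
  exact ⟨N, by rw [← hg, hs, map_zero]⟩

lemma exists_act_epow (Θ : C.A (X.prod Y)) (b : C.A X) (s : ℕ) :
    ∃ Ψ : C.A ((pow X s).prod (pow Y s)), C.act Ψ (epow C b s) = epow C (C.act Θ b) s := by
  induction s with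
  | zero => exact ⟨Θ, rfl⟩
  | succ s ih =>
    obtain ⟨Ψ, hΨ⟩ := ih
    refine ⟨tens C Ψ Θ, ?_⟩
    have h2 : C.act (tens C Ψ Θ) (C.ext (epow C b s) b) =
        C.ext (C.act Ψ (epow C b s)) (C.act Θ b) :=
      act_tens_ext C Ψ Θ (fun f c => ch_comm C _ _) _ _
    rw [hΨ] at h2
    exact h2

lemma IsNil.act {b : C.A X} (h : IsNil C b) (Θ : C.A (X.prod Y)) : IsNil C (C.act Θ b) := by
  obtain ⟨s, hs⟩ := h
  obtain ⟨Ψ, hΨ⟩ := exists_act_epow Θ b s
  exact ⟨s, by rw [← hΨ, hs, C.act_map_zero]⟩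

lemma epow_smul (q : ℚ) (a : C.A X) (N : ℕ) : epow C (q • a) N = q ^ (N + 1) • epow C a N := by
  induction N with
  | zero =>
    change q • a = q ^ (0 + 1) • a
    rw [zero_add, pow_one]
  | succ N ih =>
    change C.ext (epow C (q • a) N) (q • a) = _ • C.ext (epow C a N) a
    rw [ih, ext_smul_right, ext_smul_left, smul_smul]
    congr 1
    ring

lemma IsNil.smul {a : C.A X} (h : IsNil C a) (q : ℚ) : IsNil C (q • a) := by
  obtain ⟨N, hN⟩ := h
  exact ⟨N, by rw [epow_smul, hN, smul_zero]⟩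

lemma isNil_zero : IsNil C (0 : C.A X) := ⟨0, rfl⟩

lemma epow_mul (a b : C.A X) (N : ℕ) : epow C (a * b) N = epow C a N * epow C b N := by
  induction N with
  | zero => rfl
  | succ N ih =>
    change C.ext (epow C (a * b) N) (a * b) = C.ext (epow C a N) a * C.ext (epow C b N) b
    rw [ih, ext_mul_ext]

lemma hasDegree_ext {a : C.A X} {b : C.A Z} {q r : ℚ} (ha : HasDegree C a q)
    (hb : HasDegree C b r) : HasDegree C (C.ext a b) (q * r) := by
  rw [← hasDegree_push_iff (fst X Z), push_fst_ext _ hb, mul_comm]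
  exact hd_smul ha r

lemma hasDegree_epow {a : C.A X} {q : ℚ} (ha : HasDegree C a q) (N : ℕ) :
    HasDegree C (epow C a N) (q ^ (N + 1)) := by
  induction N with
  | zero =>
    change HasDegree C a (q ^ (0 + 1))
    rwa [zero_add, pow_one]
  | succ N ih => exact (pow_succ q (N + 1)) ▸ hasDegree_ext ih ha

/-- If a class of nonzero degree is zero, all classes are zero. -/
lemma eq_zero_of_hasDegree {q : ℚ} (hq : q ≠ 0) (h : HasDegree C (0 : C.A X) q) (x : C.A Y) :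
    x = 0 := by
  have h1 := (h Y).1
  rw [map_zero, map_zero] at h1
  exact smul_eq_zero_of_one hq h1.symm x

/-- A smash nilpotent class is numerically trivial. -/
lemma IsNil.eq_zero {a y : C.A X} (h : IsNil C a) {q : ℚ} (hq : q ≠ 0)
    (hy : HasDegree C (a * y) q) (x : C.A Y) : x = 0 := by
  obtain ⟨N, hN⟩ := h
  have h1 := hasDegree_epow hy N
  rw [epow_mul, hN, zero_mul] at h1
  exact eq_zero_of_hasDegree (pow_ne_zero _ hq) h1 x

/-- The iterated joins, with their dimensions. -/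
lemma iterate' (h𝓗 : IsHyperClass C d 𝓗) (hd : d ≠ 0) (hX : 𝓗 X h) {i e : ℕ}
    (hi : X.dim = 2 * i + e) {a : C.A X} (ha : a ∈ C.gr X i) (hp : Prim h a) (r : ℕ) :
    ∃ (J : 𝒱.Obj) (g b : C.A J) (Θ : C.A (J.prod (pow X r))) (s : ℕ), 𝓗 J g ∧ b ∈ C.gr J s ∧
      Prim g b ∧ J.dim = 2 * s + (r + 1) * e ∧ J.dim + 2 = (r + 1) * (X.dim + 2) ∧
      C.act Θ b = epow C a r := by
  induction r with
  | zero => exact ⟨X, h, a, dg C X, i, hX, ha, hp, by rw [hi]; ring, by ring, act_dg C a⟩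
  | succ r ih =>
    obtain ⟨J, g, b, Θ, s, hg, hb, hpb, hJ, hJ2, hΘ⟩ := ih
    obtain ⟨J', P, g', π, q, hg', hj⟩ := h𝓗.join hg hX
    have hd' : (-(d : ℚ)) ≠ 0 := neg_ne_zero.2 (by exact_mod_cast hd)
    have hbi := biPrim_ext hpb hp
    refine ⟨J', g', (-(d : ℚ))⁻¹ • C.push q (C.pull π (C.ext b a)),
      C.comp (C.comp (C.cograph q) (C.graph π)) (tens C Θ (dg C X)), s + i + 1, hg', ?_, ?_, ?_, ?_,
      ?_⟩
    · have := join_mem hj (ext_mem' hb ha)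
      exact Submodule.smul_mem _ _ (by exact_mod_cast this)
    · exact prim_smul (join_prim hj hbi) _
    · rw [hj.dim_J, hJ, hi]
      ring
    · rw [hj.dim_J, add_right_comm, add_mul, one_mul, ← hJ2]
      ring
    · have h1 : C.push π (C.pull q (C.push q (C.pull π (C.ext b a)))) = (-(d : ℚ)) • C.ext b a :=
        hj.self _ hbi
      have h2 : C.act (tens C Θ (dg C X)) (C.ext b a) = C.ext (C.act Θ b) (C.act (dg C X) a) :=
        act_tens_ext C Θ (dg C X) (fun f c => ch_comm C _ _) b a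
      rw [C.act_comp, C.act_comp, C.act_cograph, C.act_graph, map_smul, map_smul, h1, smul_smul,
        inv_mul_cancel₀ hd', one_smul]
      rw [hΘ, act_dg] at h2
      exact h2

/-- The join with a variety of even dimension. -/
lemma even_join (h𝓗 : IsHyperClass C d 𝓗) (hd : d ≠ 0) (hX : 𝓗 X h) {i : ℕ} {a : C.A X}
    (ha : a ∈ C.gr X i) (hp : Prim h a) {m : ℕ} (hm : 1 ≤ m) :
    ∃ (J : 𝒱.Obj) (g b : C.A J) (Θ : C.A (J.prod X)), 𝓗 J g ∧ b ∈ C.gr J ((i + m + 1 : ℕ) : ℤ) ∧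
      Prim g b ∧ J.dim = X.dim + 2 * m + 2 ∧ C.act Θ b = a := by
  obtain ⟨Z, h', ζ, r, hZ, hZ2, hζ, hζh, hr, hζζ⟩ := h𝓗.even m hm
  have hh' : h' ∈ C.gr Z 1 := h𝓗.deg_one hZ
  have h1 : Prim h' ζ := by
    refine prim_of_mem hh' hζ fun j hj => ?_
    have : j = m := by omega
    rw [this]
    exact hζh
  obtain ⟨J, P, g, π, q, hg, hj⟩ := h𝓗.join hX hZ
  have hd' : (-(d : ℚ)) ≠ 0 := neg_ne_zero.2 (by exact_mod_cast hd)
  have hbi := biPrim_ext hp h1
  have h2 : C.push (fst X Z) (C.ext a ζ * C.ext 1 ζ) = r • a := by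
    rw [ext_mul_ext, mul_one, push_fst_ext _ hζζ]
  refine ⟨J, g, C.push q (C.pull π (C.ext a ζ)),
    (r⁻¹ * (-(d : ℚ))⁻¹) • C.comp (C.comp (C.cograph q) (C.graph π))
      (C.push (Obj.lift (𝟙 (X.prod Z)) (fst X Z)) (C.ext 1 ζ)), hg, ?_, ?_, ?_, ?_⟩
  · have := join_mem hj (ext_mem' ha hζ)
    exact_mod_cast this
  · exact join_prim hj hbi
  · rw [hj.dim_J, hZ2]
  · have h3 : C.push π (C.pull q (C.push q (C.pull π (C.ext a ζ)))) = (-(d : ℚ)) • C.ext a ζ :=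
      hj.self _ hbi
    have h4 : C.act (C.push (Obj.lift (𝟙 (X.prod Z)) (fst X Z)) (C.ext 1 ζ)) (C.ext a ζ) =
        r • a := by
      rw [TheoryData.act_apply, ← C.proj_right, ← C.push_comp, lift_snd, ← C.pull_comp, lift_fst,
        C.pull_id, ch_comm C]
      exact h2
    have h5 : ∀ (q : ℚ) (Θ : C.A (J.prod X)) (x : C.A J), C.act (q • Θ) x = q • C.act Θ x := by
      intro q Θ x
      rw [TheoryData.act_apply, TheoryData.act_apply, smul_mul_assoc, map_smul]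
    rw [h5, C.act_comp, C.act_comp, C.act_cograph, C.act_graph, h3]
    have h6 : C.act (C.push (Obj.lift (𝟙 (X.prod Z)) (fst X Z)) (C.ext 1 ζ))
        ((-(d : ℚ)) • C.ext a ζ) = (-(d : ℚ)) • C.act (C.push (Obj.lift (𝟙 (X.prod Z)) (fst X Z))
          (C.ext 1 ζ)) (C.ext a ζ) := by
      rw [TheoryData.act_apply, TheoryData.act_apply, map_smul, mul_smul_comm, map_smul]
    rw [h6, h4, smul_smul, smul_smul, show r⁻¹ * (-(d : ℚ))⁻¹ * (-(d : ℚ)) * r = 1 by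
      field_simp, one_smul]

/-- A primitive class in a codimension in which Hartshorne's equality holds modulo smash nilpotent
classes is smash nilpotent. -/
lemma isNil_of_prim (hd : d ≠ 0) (ht : HasDegree C (h ^ X.dim) d) {i : ℕ} (hi : i ≤ X.dim)
    (H : SpannedMod C h i) {a : C.A X} (ha : a ∈ C.gr X i) (hp : Prim h a) : IsNil C a := by
  obtain ⟨q, hq⟩ := H a ha
  by_cases hq0 : q = 0
  · rwa [hq0, zero_smul, sub_zero] at hq
  · have hd' : (d : ℚ) ≠ 0 := by exact_mod_cast hd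
    have h1 : HasDegree C ((a - q • h ^ i) * h ^ (X.dim - i)) (0 - q * d) := by
      rw [sub_mul, smul_mul_assoc, ← pow_add, Nat.add_sub_cancel' hi]
      exact hd_sub (hp _) (hd_smul ht q)
    have h2 := hq.eq_zero (Y := X) (by rw [zero_sub]; exact neg_ne_zero.2 (mul_ne_zero hq0 hd')) h1
    rw [h2 a]
    exact isNil_zero

lemma spannedMod_of_prim (hd : d ≠ 0) (hh : h ∈ C.gr X 1) (ht : HasDegree C (h ^ X.dim) d) {i : ℕ}
    (hi : i ≤ X.dim) (H : ∀ a ∈ C.gr X i, Prim h a → IsNil C a) : SpannedMod C h i := by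
  intro a ha
  obtain ⟨q, hq⟩ := exists_prim hd hh ht hi ha
  have hhi : h ^ i ∈ C.gr X i := by simpa using pow_mem hh i
  exact ⟨q, H _ (Submodule.sub_mem _ ha (Submodule.smul_mem _ _ hhi)) hq⟩

/-- Coverings. -/
lemma spannedMod_of_cover {X' : 𝒱.Obj} {h' : C.A X'} (f : X' ⟶ X) {r m : ℚ} (hr : r ≠ 0)
    (hm : m ≠ 0) (hf : ∀ a, C.push f (C.pull f a) = r • a) (hh : C.pull f h = m • h') {i : ℕ}
    (H : SpannedMod C h' i) : SpannedMod C h i := by
  intro a ha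
  obtain ⟨q, hq⟩ := H (C.pull f a) (C.pull_mem f ha)
  have h1 : C.pull f (h ^ i) = m ^ i • h' ^ i := by rw [map_pow, hh, smul_pow]
  have h2 : h' ^ i = (m ^ i)⁻¹ • C.pull f (h ^ i) := by
    rw [h1, smul_smul, inv_mul_cancel₀ (pow_ne_zero _ hm), one_smul]
  refine ⟨q * (m ^ i)⁻¹, ?_⟩
  have h3 : a - (q * (m ^ i)⁻¹) • h ^ i =
      r⁻¹ • C.act (C.graph f) (C.pull f a - q • h' ^ i) := by
    rw [C.act_graph, map_sub, hf, map_smul, h2, map_smul, hf, smul_sub, smul_smul, smul_smul,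
      smul_smul, smul_smul, inv_mul_cancel₀ hr, one_smul,
      show r⁻¹ * q * (m ^ i)⁻¹ * r = q * (m ^ i)⁻¹ by field_simp]
  rw [h3]
  exact (hq.act _).smul _

variable {𝓕 : ℕ → ∀ X : 𝒱.Obj, C.A X → Prop}

omit hC in
/-- The arithmetic of the dimensions. -/
lemma arith {n e i N : ℕ} (hn : n = 2 * i + e) (he : 1 ≤ e) (hN : 2 * n + 8 ≤ N)
    (hN2 : N % 2 = 0) : ∃ r l : ℕ, 1 ≤ l ∧ N = (r + 1) * (n + 2) + 2 * l ∧
      N ≤ (2 * n + 5) * ((r + 1) * e) := by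
  have hpos : 0 < 2 * (n + 2) := by omega
  obtain ⟨t, ρ, hρ, ht⟩ : ∃ t ρ : ℕ, ρ < 2 * (n + 2) ∧ N - 2 = 2 * (n + 2) * t + ρ :=
    ⟨(N - 2) / (2 * (n + 2)), (N - 2) % (2 * (n + 2)), Nat.mod_lt _ hpos,
      (Nat.div_add_mod _ _).symm⟩
  have ht0 : 1 ≤ t := by
    rcases Nat.eq_zero_or_pos t with rfl | h
    · rw [mul_zero, zero_add] at ht
      omega
    · exact h
  obtain ⟨u, rfl⟩ : ∃ u, t = u + 1 := ⟨t - 1, by omega⟩
  have hρ2 : ρ % 2 = 0 := by
    have h1 : 2 * (n + 2) * (u + 1) = 2 * ((n + 2) * (u + 1)) := by ring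
    rw [h1] at ht
    omega
  have h2 : N = 2 * (n + 2) * (u + 1) + ρ + 2 := by omega
  refine ⟨2 * u + 1, (ρ + 2) / 2, by omega, ?_, ?_⟩
  · have h3 : 2 * ((ρ + 2) / 2) = ρ + 2 := by omega
    rw [h3, h2]
    ring
  · have h4 : (2 * n + 5) * ((2 * u + 1 + 1) * 1) ≤ (2 * n + 5) * ((2 * u + 1 + 1) * e) :=
      Nat.mul_le_mul_left _ (Nat.mul_le_mul_left _ he)
    refine le_trans ?_ h4
    rw [h2]
    have h5 : (2 * n + 5) * ((2 * u + 1 + 1) * 1) = 2 * (n + 2) * (u + 1) +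
        (2 * (n + 2) * u + 2 * (u + 1) + (2 * n + 4)) := by ring
    rw [h5]
    omega

/-- **The asymptotic form implies Hartshorne's conjecture modulo smash nilpotent classes.** -/
theorem asymptotic (h𝓕 : IsHyperFamily C 𝓕) {d : ℕ} (hd : 1 ≤ d) (hA : Asymptotic C 𝓕 d)
    (X : 𝒱.Obj) (h : C.A X) (hX : 𝓕 d X h) (i : ℕ) (hi : 2 * i < X.dim) : SpannedMod C h i := by
  obtain ⟨e, he⟩ : ∃ e, X.dim = 2 * i + e := ⟨X.dim - 2 * i, by omega⟩
  obtain ⟨d', n, ⟨c, rfl⟩, hd3, hn, hn2, H⟩ := hA (2 * X.dim + 5) (2 * X.dim + 8)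
  have hc : 1 ≤ c := Nat.pos_of_ne_zero (by rintro rfl; simp at hd3)
  obtain ⟨X', h', f, r, hX', hdim, hr, hf, hfh⟩ := h𝓕.cover d c hd hc X h hX
  refine spannedMod_of_cover f hr (by exact_mod_cast (by omega : c ≠ 0)) hf hfh ?_
  have h𝓗 := h𝓕.hyper _ hd3
  have hd0 : d * c ≠ 0 := by omega
  refine spannedMod_of_prim hd0 (h𝓗.deg_one hX') (h𝓗.top hX') (by omega) fun a ha hp => ?_
  obtain ⟨r, l, hl, hnl, hnm⟩ := arith he (by omega) hn hn2
  obtain ⟨J, g, b, Θ, s, hg, hb, hpb, hJ, hJ2, hΘ⟩ :=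
    iterate' h𝓗 hd0 hX' (hdim.trans he) ha hp r
  obtain ⟨J', g', b', Θ', hg', hb', hpb', hJ', hΘ'⟩ := even_join h𝓗 hd0 hg hb hpb hl
  have hdJ : J'.dim = n := by rw [hJ', hnl, ← hdim, ← hJ2]; ring
  have h1 : n = 2 * (s + l + 1) + (r + 1) * e := by
    rw [← hdJ, hJ', hJ]
    ring
  have h2 : IsNil C b' := by
    refine isNil_of_prim hd0 (h𝓗.top hg') (i := s + l + 1) (by omega)
      (H J' g' hg' hdJ (s + l + 1) ?_) hb' hpb'
    calc n + (2 * X.dim + 5) * (2 * (s + l + 1))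
        ≤ (2 * X.dim + 5) * ((r + 1) * e) + (2 * X.dim + 5) * (2 * (s + l + 1)) := by omega
      _ = (2 * X.dim + 5) * n := by rw [← mul_add]; congr 1; omega
  apply IsNil.of_epow (r := r)
  rw [← hΘ, ← hΘ']
  exact (h2.act Θ').act Θ

end Pool.Agent.Run7.H634.HC
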