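import Pool.Agent.Run7.h634.HC.Defs

/-!
# Smash nilpotent classes: definitions
-/

set_option autoImplicit false

open CategoryTheory AlgebraicGeometry

universe u v

namespace Pool.Agent.Run7.H634.HC

open Pool.Agent.H914 Pool.Agent.H914.VarClass Pool.Agent.H914.VarClass.Obj Pool.Agent.W492.BB
  Pool.Agent.W550.Corr Pool.Agent.TH133

variable {k : Type u} [Field k] {𝒱 : VarClass k} (C : TheoryData.{u, v, 0} 𝒱 ℚ)

/-- The class `a` is smash nilpotent: the external power `a × ⋯ × a` with `N + 1` factors is zero for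
some `N`. -/
def IsNil {X : 𝒱.Obj} (a : C.A X) : Prop := ∃ N : ℕ, epow C a N = 0

/-- `CH^i(X) = ℚ h^i` modulo smash nilpotent classes. -/
def SpannedMod {X : 𝒱.Obj} (h : C.A X) (i : ℕ) : Prop :=
  ∀ a : C.A X, C.Deg i a → ∃ q : ℚ, IsNil C (a - q • h ^ i)

/-- The asymptotic form of Hartshorne's conjecture modulo smash nilpotent classes, for the multiples
of the degree `d`: for every `m` and `N` there are a multiple `d' ≥ 3` of `d` and an even `n ≥ N` such
that `CH^i(X) = ℚ h^i` modulo smash nilpotent classes for all `X` of degree `d'` and dimension `n` and all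
`i` with `n ≤ m (n - 2 i)`, that is `i ≤ (1 - 1 / m) n / 2`. -/
def Asymptotic (𝓕 : ℕ → ∀ X : 𝒱.Obj, C.A X → Prop) (d : ℕ) : Prop :=
  ∀ m N : ℕ, ∃ d' n : ℕ, d ∣ d' ∧ 3 ≤ d' ∧ N ≤ n ∧ n % 2 = 0 ∧
    ∀ (X : 𝒱.Obj) (h : C.A X), 𝓕 d' X h → X.dim = n →
      ∀ i : ℕ, n + m * (2 * i) ≤ m * n → SpannedMod C h i

end Pool.Agent.Run7.H634.HC
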